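import Pool.Agent.T9h58.LN.MN

/-!
# The sums `∑ a_p log p`: the normal law
-/

set_option autoImplicit false

namespace Pool.Agent.T9h58.LN

open Finset Filter Topology Pool.Agent.N430.CLT

/-- the variance of the sums `∑ a_p log p` is larger than any multiple of `x²` -/
lemma var_log (M : ℝ) (hM : 0 < M) : ∃ x₀ : ℕ, 1 ≤ x₀ ∧ ∀ x : ℕ, x₀ ≤ x →
    (M * x) ^ 2 ≤ ∑ p ∈ PP x, Real.log p ^ 2 * p := by
  obtain ⟨C, hC1, hC⟩ := mert2
  set c : ℝ := Real.exp (-(2 * C + 1)) with hc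
  have hc0 : 0 < c := Real.exp_pos _
  obtain ⟨x₀, hx₀⟩ := exists_nat_ge (2 / c * Real.exp ((2 * M / c) ^ 2))
  refine ⟨max x₀ 1, le_max_right _ _, fun x hx => ?_⟩
  have hx1 : 1 ≤ x := (le_max_right _ _).trans hx
  have hxR : (0 : ℝ) < x := by exact_mod_cast hx1
  have hx2 : 2 / c * Real.exp ((2 * M / c) ^ 2) ≤ x :=
    hx₀.trans (by exact_mod_cast (le_max_left _ _).trans hx)
  have hcx : Real.exp ((2 * M / c) ^ 2) ≤ c * x / 2 := by
    rw [div_mul_eq_mul_div, div_le_iff₀ hc0] at hx2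
    linarith
  have hexp1 : 1 ≤ Real.exp ((2 * M / c) ^ 2) := Real.one_le_exp (sq_nonneg _)
  set y : ℕ := ⌊c * x⌋₊ with hy
  have hy1 : (y : ℝ) ≤ c * x := Nat.floor_le (by positivity)
  have hy2 : c * x / 2 ≤ y := by
    have := Nat.lt_floor_add_one (c * x)
    rw [← hy] at this
    linarith
  have hy0 : (0 : ℝ) < y := by linarith
  have hyN : 1 ≤ y := by exact_mod_cast hy0
  have hlogy : (2 * M / c) ^ 2 ≤ Real.log y := by
    rw [Real.le_log_iff_exp_le hy0]
    linarith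
  have hlogy0 : 0 ≤ Real.log y := le_trans (sq_nonneg _) hlogy
  have hlogyx : Real.log y ≤ Real.log x - (2 * C + 1) := by
    have h1 : Real.log y ≤ Real.log (c * x) := Real.log_le_log hy0 hy1
    rw [Real.log_mul hc0.ne' hxR.ne', hc, Real.log_exp] at h1
    linarith
  have hyx : y ≤ x := by
    have h2 : c ≤ 1 := by
      rw [hc, Real.exp_le_one_iff]
      linarith
    have h3 : (y : ℝ) ≤ x := hy1.trans (mul_le_of_le_one_left hxR.le h2)
    exact_mod_cast h3
  have hAA : 1 ≤ Amer x - Amer y := by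
    have h1 := (abs_le.1 (hC x hx1).1).1
    have h2 := (abs_le.1 (hC y hyN).1).2
    linarith
  have hsub : PP y ⊆ PP x := by
    intro p hp
    rw [mem_PP] at hp ⊢
    exact ⟨hp.1.trans hyx, hp.2⟩
  have hAd : Amer x - Amer y = ∑ p ∈ PP x \ PP y, Real.log p / p := by
    unfold Amer
    rw [← sum_sdiff hsub]
    ring
  have h1 : (y : ℝ) ^ 2 * Real.log y ≤ ∑ p ∈ PP x \ PP y, Real.log p ^ 2 * p := by
    calc (y : ℝ) ^ 2 * Real.log y ≤ (y : ℝ) ^ 2 * Real.log y * (Amer x - Amer y) :=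
          le_mul_of_one_le_right (by positivity) hAA
      _ = ∑ p ∈ PP x \ PP y, (y : ℝ) ^ 2 * Real.log y * (Real.log p / p) := by
          rw [hAd, mul_sum]
      _ ≤ ∑ p ∈ PP x \ PP y, Real.log p ^ 2 * p := by
          refine sum_le_sum fun p hp => ?_
          rw [Finset.mem_sdiff, mem_PP, mem_PP] at hp
          have hyp : y < p := by
            by_contra h
            exact hp.2 ⟨not_lt.1 h, hp.1.2⟩
          have hyp' : (y : ℝ) ≤ p := by exact_mod_cast hyp.le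
          have hp0 : (0 : ℝ) < p := by linarith
          have hll : Real.log y ≤ Real.log p := Real.log_le_log hy0 hyp'
          have hlp : 0 ≤ Real.log p := hlogy0.trans hll
          calc (y : ℝ) ^ 2 * Real.log y * (Real.log p / p) ≤
                (p : ℝ) ^ 2 * Real.log p * (Real.log p / p) := by
                apply mul_le_mul_of_nonneg_right _ (by positivity)
                exact mul_le_mul (pow_le_pow_left₀ hy0.le hyp' 2) hll hlogy0 (by positivity)
            _ = Real.log p ^ 2 * p := by field_simp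
  have h2 : ∑ p ∈ PP x \ PP y, Real.log p ^ 2 * p ≤ ∑ p ∈ PP x, Real.log p ^ 2 * p :=
    sum_le_sum_of_subset_of_nonneg sdiff_subset fun _ _ _ => by positivity
  refine le_trans ?_ (h1.trans h2)
  calc (M * x) ^ 2 = (c * x / 2) ^ 2 * (2 * M / c) ^ 2 := by field_simp
    _ ≤ (y : ℝ) ^ 2 * Real.log y :=
        mul_le_mul (pow_le_pow_left₀ (by positivity) hy2 2) hlogy (sq_nonneg _) (by positivity)

/-- **the normal law for the sums `∑ a_p log p`** -/
theorem crit (l : TLoc) (t : ℝ) {ε : ℝ} (hε : 0 < ε) : ∃ K x₀ : ℕ, ∀ x N : ℕ, x₀ ≤ x →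
    x ^ K ≤ N →
      |(#{m ∈ Icc 1 N | ∑ p ∈ PP x, Real.log p * l.T p m ≤
        t * √(∑ p ∈ PP x, Real.log p ^ 2 * p)} : ℝ) / N - Phi t| ≤ ε := by
  obtain ⟨η, hη, K, h⟩ := share_shift l (t := t) hε
  set M : ℝ := 2 / η + 2 / ε * (|l.R| * 2) with hM
  have hM1 : 2 / η ≤ M := by
    have : 0 ≤ 2 / ε * (|l.R| * 2) := by positivity
    rw [hM]; linarith
  have hM2 : 2 / ε * (|l.R| * 2) ≤ M := by
    have : 0 ≤ 2 / η := by positivity
    rw [hM]; linarith
  have hM0 : 0 < M := lt_of_lt_of_le (by positivity) hM1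
  obtain ⟨x₀, hx₀, hv⟩ := var_log M hM0
  refine ⟨K, x₀, fun x N hx hN => ?_⟩
  have hx1 : 1 ≤ x := hx₀.trans hx
  have hxR : (0 : ℝ) < x := by exact_mod_cast hx1
  have hvx := hv x hx
  set V : ℝ := ∑ p ∈ PP x, Real.log p ^ 2 * p with hV
  have hV0 : 0 < V := lt_of_lt_of_le (by positivity) hvx
  set σ : ℝ := √V with hσ
  have hσ0 : 0 < σ := Real.sqrt_pos.2 hV0
  have hσ2 : σ ^ 2 = V := Real.sq_sqrt hV0.le
  have hσx : M * x ≤ σ := Real.le_sqrt_of_sq_le hvx
  have hησ : 2 * x ≤ η * σ := by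
    have h1 : 2 / η * x ≤ σ := (mul_le_mul_of_nonneg_right hM1 hxR.le).trans hσx
    rw [div_mul_eq_mul_div, div_le_iff₀ hη] at h1
    linarith
  have hεσ : |l.R| * (2 * x) ≤ ε / 2 * σ := by
    have h1 : 2 / ε * (|l.R| * 2) * x ≤ σ := (mul_le_mul_of_nonneg_right hM2 hxR.le).trans hσx
    have h2 : ε / 2 * (2 / ε * (|l.R| * 2) * x) ≤ ε / 2 * σ :=
      mul_le_mul_of_nonneg_left h1 (by positivity)
    have h3 : ε / 2 * (2 / ε * (|l.R| * 2) * x) = |l.R| * (2 * x) := by
      field_simp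
    rwa [h3] at h2
  set θ : ℝ := ∑ p ∈ PP x, Real.log p with hθ
  have hθ0 : 0 ≤ θ := sum_nonneg fun p hp => Real.log_nonneg (by
    exact_mod_cast (mem_PP.1 hp).2.one_le)
  have hθx : θ ≤ 2 * x := by
    rw [hθ, PP_eq]
    exact Pool.Agent.Erdos456.Mert.theta_le x
  have key := h x N (fun p => Real.log p) σ (t * σ + l.R * θ) hN hσ0 (by rw [hσ2]) (fun p hp hpp => by
      have hp0 : (0 : ℝ) < p := by exact_mod_cast hpp.pos
      have hpx : (p : ℝ) ≤ x := by exact_mod_cast hp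
      have hlog : 0 ≤ Real.log p := Real.log_nonneg (by exact_mod_cast hpp.one_le)
      have hsp : 0 < √(p : ℝ) := Real.sqrt_pos.2 hp0
      have hss : √(p : ℝ) * √p = p := Real.mul_self_sqrt hp0.le
      rw [abs_of_nonneg hlog]
      refine le_trans ?_ hησ
      calc Real.log p * √p ≤ 2 * √p * √p := mul_le_mul_of_nonneg_right (log_le_sqrt p hpp) hsp.le
        _ = 2 * p := by rw [mul_assoc, hss]
        _ ≤ 2 * x := by linarith) (by
      rw [add_sub_cancel_left, abs_mul, abs_of_nonneg hθ0]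
      exact (mul_le_mul_of_nonneg_left hθx (abs_nonneg _)).trans hεσ)
  have e : ∀ m, (∑ p ∈ PP x, Real.log p * l.T p m ≤ t * σ) ↔
      (∑ p ∈ PP x, Real.log p * l.T p m + l.R * θ ≤ t * σ + l.R * θ) := by
    intro m
    constructor
    · intro h; linarith
    · intro h; linarith
  simp only [e]
  exact key

end Pool.Agent.T9h58.LN
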