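import Pool.Agent.N430.CLT.Slutsky

/-!
# The central limit theorem for arrays of local functions
-/

set_option autoImplicit false

namespace Pool.Agent.T9h58.LN

open Finset Filter Topology MeasureTheory ProbabilityTheory Pool.Agent.N430.CLT

lemma V_le (d : Dat) (x : ℕ) : d.V x ≤ x := by
  unfold Dat.V
  calc ∑ p ∈ PP x, d.v p ≤ ∑ _p ∈ PP x, (1 : ℝ) :=
        sum_le_sum fun p hp => d.v_le_one (mem_PP.1 hp).2
    _ = #(PP x) := by rw [sum_const, nsmul_eq_mul, mul_one]
    _ ≤ x := by exact_mod_cast card_PP_le x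

/-- convergence of the characteristic functions -/
theorem char_arr (d : ℕ → Dat) (X N : ℕ → ℕ) (hV : ∀ j : ℕ, (j : ℝ) ≤ (d j).V (X j))
    (hN : ∀ j, X j ^ j ≤ N j) (t : ℝ) :
    Tendsto (fun j => avg (N j) (fun m =>
      Complex.exp ((t * ((d j).S (X j) m / √((d j).V (X j))) : ℝ) * Complex.I)))
      atTop (𝓝 (Complex.exp (-((t ^ 2 / 2 : ℝ) : ℂ)))) := by
  have hVt : Tendsto (fun j => (d j).V (X j)) atTop atTop :=
    tendsto_atTop_mono hV tendsto_natCast_atTop_atTop
  have hXt : Tendsto (fun j => (X j : ℝ)) atTop atTop :=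
    tendsto_atTop_mono (fun j => (hV j).trans (V_le (d j) (X j))) tendsto_natCast_atTop_atTop
  rw [Metric.tendsto_atTop]
  intro ε hε
  set u : ℝ := 2 * |t| + 1 with hu
  have hu1 : 1 ≤ u := by have := abs_nonneg t; linarith
  have hu0 : 0 < u := by linarith
  -- choice of K
  have hK0 : Tendsto (fun k : ℕ => 4 * Real.exp (u ^ 2) * (1 / 2 : ℝ) ^ k) atTop (𝓝 0) := by
    have := tendsto_pow_atTop_nhds_zero_of_lt_one (r := (1 / 2 : ℝ)) (by norm_num) (by norm_num)
    simpa using this.const_mul (4 * Real.exp (u ^ 2))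
  obtain ⟨k, hk⟩ := (hK0.eventually (gt_mem_nhds (show (0 : ℝ) < ε / 4 by positivity))).exists
  set K := 2 * k with hK
  have hKe : Even K := even_two_mul k
  have hk2 : 4 * Real.exp (u ^ 2) * (1 / 2 : ℝ) ^ K < ε / 4 := by
    refine lt_of_le_of_lt ?_ hk
    apply mul_le_mul_of_nonneg_left _ (by positivity)
    exact pow_le_pow_of_le_one (by norm_num) (by norm_num) (by omega)
  have hσ : Tendsto (fun j => √((d j).V (X j))) atTop atTop := Real.tendsto_sqrt_atTop.comp hVt
  have h1 : ∀ᶠ j : ℕ in atTop, u ≤ √((d j).V (X j)) := hσ.eventually_ge_atTop u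
  have h2 : Tendsto (fun j => 2 * |t| ^ 3 / √((d j).V (X j))) atTop (𝓝 0) := hσ.const_div_atTop _
  have h3 : Tendsto (fun j : ℕ => 2 * ((K : ℝ) + 1) / (X j : ℝ)) atTop (𝓝 0) :=
    tendsto_const_nhds.div_atTop hXt
  have hev := ((h1.and (h2.eventually (gt_mem_nhds (show (0 : ℝ) < ε / 4 by positivity)))).and
    ((h3.eventually (gt_mem_nhds (show (0 : ℝ) < ε / 4 by positivity))).and
    ((eventually_ge_atTop (2 * K + 1)).and (hXt.eventually_ge_atTop 1))))
  obtain ⟨x₀, hx₀⟩ := eventually_atTop.1 hev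
  refine ⟨x₀, fun j hx => ?_⟩
  obtain ⟨⟨g1, g2⟩, g3, g4, g5⟩ := hx₀ j hx
  have hx1 : (1 : ℝ) ≤ X j := g5
  have g5' : 1 ≤ X j := by exact_mod_cast g5
  have g4' : X j ^ (2 * K + 1) ≤ N j := (Nat.pow_le_pow_right g5' g4).trans (hN j)
  have hN0 : 0 < N j := lt_of_lt_of_le (Nat.pow_pos g5') g4'
  set D := d j with hD
  set x := X j with hxd
  set σ := √(D.V x) with hσd
  have hσ0 : 0 < σ := by linarith
  have hσ2 : σ ^ 2 = D.V x := Real.sq_sqrt (D.V_nonneg x)
  set y := t / σ with hy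
  have hyabs : |y| = |t| / σ := by rw [hy, abs_div, abs_of_pos hσ0]
  have hy1 : |y| ≤ 1 := by
    rw [hyabs, div_le_one hσ0]
    have := abs_nonneg t
    linarith
  have efun : (fun m => Complex.exp ((t * (D.S x m / σ) : ℝ) * Complex.I)) =
      fun m => Complex.exp ((y * D.S x m : ℝ) * Complex.I) := by
    funext m
    rw [hy, show t * (D.S x m / σ) = t / σ * D.S x m by ring]
  rw [efun, dist_eq_norm]
  have a1 := compare D x (N j) K g5' hN0 hKe hy1
  have a2 := char_periodic D x hy1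
  have e1 : y ^ 2 * D.V x / 2 = t ^ 2 / 2 := by
    rw [hy, ← hσ2]
    field_simp
  rw [e1] at a2
  -- the bound on the K-th moment
  have a3 := abs_moment D x K (s := u / σ) (by positivity) (by rw [div_le_one hσ0]; exact g1)
  have e2 : (u / σ) ^ 2 * D.V x = u ^ 2 := by
    rw [← hσ2]
    field_simp
  rw [e2] at a3
  have a4 : 2 * (|y| ^ K / (K.factorial : ℝ) * avgP (prim x) (fun m => |D.S x m| ^ K)) ≤
      4 * Real.exp (u ^ 2) * (1 / 2 : ℝ) ^ K := by
    have h5 : |y| ≤ (1 / 2) * (u / σ) := by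
      rw [hyabs, ← mul_div_assoc]
      apply div_le_div_of_nonneg_right _ hσ0.le
      linarith
    have h6 : |y| ^ K ≤ (1 / 2 : ℝ) ^ K * (u / σ) ^ K := by
      rw [← mul_pow]
      exact pow_le_pow_left₀ (abs_nonneg _) h5 K
    have h7 : 0 ≤ avgP (prim x) (fun m => |D.S x m| ^ K) := avgP_nonneg' _ fun m => by positivity
    have h8 : (0 : ℝ) < K.factorial := by exact_mod_cast K.factorial_pos
    calc 2 * (|y| ^ K / (K.factorial : ℝ) * avgP (prim x) (fun m => |D.S x m| ^ K))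
        ≤ 2 * ((1 / 2 : ℝ) ^ K * (u / σ) ^ K / (K.factorial : ℝ) *
          avgP (prim x) (fun m => |D.S x m| ^ K)) := by gcongr
      _ = 2 * (1 / 2 : ℝ) ^ K * ((u / σ) ^ K / (K.factorial : ℝ) *
          avgP (prim x) (fun m => |D.S x m| ^ K)) := by ring
      _ ≤ 2 * (1 / 2 : ℝ) ^ K * (2 * Real.exp (u ^ 2)) := by gcongr
      _ = _ := by ring
  have a5 : 2 * ((K : ℝ) + 1) * (x : ℝ) ^ (2 * K) / (N j : ℝ) ≤ 2 * (K + 1) / x := by
    have h9 : ((x : ℝ)) ^ (2 * K + 1) ≤ (N j : ℝ) := by exact_mod_cast g4'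
    rw [div_le_div_iff₀ (by exact_mod_cast hN0) (by linarith)]
    calc 2 * ((K : ℝ) + 1) * (x : ℝ) ^ (2 * K) * x = 2 * (K + 1) * (x : ℝ) ^ (2 * K + 1) := by
          rw [pow_succ]; ring
      _ ≤ _ := by gcongr
  have a6 : 2 * |y| ^ 3 * D.V x = 2 * |t| ^ 3 / σ := by
    rw [hyabs, ← hσ2]
    field_simp
  rw [a6] at a2
  have e3 : avg (N j) (fun m => Complex.exp ((y * D.S x m : ℝ) * Complex.I)) -
      Complex.exp (-((t ^ 2 / 2 : ℝ) : ℂ)) =
      (avg (N j) (fun m => Complex.exp ((y * D.S x m : ℝ) * Complex.I)) -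
        avgP (prim x) (fun m => Complex.exp ((y * D.S x m : ℝ) * Complex.I))) +
      (avgP (prim x) (fun m => Complex.exp ((y * D.S x m : ℝ) * Complex.I)) -
        Complex.exp (-((t ^ 2 / 2 : ℝ) : ℂ))) := by ring
  rw [e3]
  refine lt_of_le_of_lt (norm_add_le _ _) ?_
  linarith

/-- the central limit theorem for arrays, along sequences -/
theorem clt_seq (d : ℕ → Dat) (X N : ℕ → ℕ) (hV : ∀ j : ℕ, (j : ℝ) ≤ (d j).V (X j))
    (hN : ∀ j, X j ^ j ≤ N j) (t : ℝ) :
    Tendsto (fun j => (#{m ∈ Icc 1 (N j) | (d j).S (X j) m / √((d j).V (X j)) ≤ t} : ℝ) / N j)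
      atTop (𝓝 (Phi t)) := by
  have hN1 : ∀ᶠ j : ℕ in atTop, N j ≠ 0 := by
    filter_upwards [eventually_ge_atTop 1] with j hj h0
    have h1 := hN j
    rw [h0] at h1
    have h2 : X j ^ j = 0 := by omega
    have h3 : X j = 0 := by
      by_contra hne
      exact absurd h2 (pow_ne_zero j hne)
    have h4 := (hV j).trans (V_le (d j) (X j))
    rw [h3] at h4
    have h5 : (1 : ℝ) ≤ j := by exact_mod_cast hj
    push_cast at h4
    linarith
  let μ : ℕ → ProbabilityMeasure ℝ := fun j =>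
    ⟨law (N j) (fun m => (d j).S (X j) m / √((d j).V (X j))), inferInstance⟩
  let ν : ProbabilityMeasure ℝ := ⟨gaussianReal 0 1, inferInstance⟩
  have h1 : Tendsto μ atTop (𝓝 ν) := by
    rw [ProbabilityMeasure.tendsto_iff_tendsto_charFun]
    intro s
    have h2 := char_arr d X N hV hN s
    have h3 : charFun (ν : Measure ℝ) s = Complex.exp (-((s ^ 2 / 2 : ℝ) : ℂ)) := by
      change charFun (gaussianReal 0 1) s = _
      rw [charFun_gaussianReal]
      congr 1
      push_cast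
      ring
    rw [h3]
    refine h2.congr' ?_
    filter_upwards [hN1] with j hj
    change _ = charFun (law (N j) (fun m => (d j).S (X j) m / √((d j).V (X j)))) s
    rw [charFun_law hj]
  have h2 : (ν : Measure ℝ) (frontier (Set.Iic t)) = 0 := by
    rw [frontier_Iic]
    change gaussianReal 0 1 {t} = 0
    have := noAtoms_gaussianReal (μ := 0) (v := 1) one_ne_zero
    exact measure_singleton t
  have h3 := ProbabilityMeasure.tendsto_measure_of_null_frontier_of_tendsto' h1 h2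
  have h4 := (ENNReal.tendsto_toReal (measure_ne_top (ν : Measure ℝ) (Set.Iic t))).comp h3
  refine (h4.congr' ?_)
  filter_upwards [hN1] with j hj
  change (law (N j) (fun m => (d j).S (X j) m / √((d j).V (X j))) (Set.Iic t)).toReal = _
  rw [law_Iic hj]

/-- **the central limit theorem for arrays** -/
theorem clt_arr (t : ℝ) {ε : ℝ} (hε : 0 < ε) : ∃ K : ℕ, ∀ (d : Dat) (x N : ℕ),
    (K : ℝ) ≤ d.V x → x ^ K ≤ N →
      |(#{m ∈ Icc 1 N | d.S x m / √(d.V x) ≤ t} : ℝ) / N - Phi t| ≤ ε := by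
  by_contra hcon
  push Not at hcon
  choose d X N h1 h2 h3 using hcon
  have key := clt_seq d X N h1 h2 t
  rw [Metric.tendsto_atTop] at key
  obtain ⟨n, hn⟩ := key ε hε
  have h4 := hn n le_rfl
  rw [Real.dist_eq] at h4
  exact absurd h4 (not_lt.2 (h3 n).le)

end Pool.Agent.T9h58.LN
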