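import Pool.Agent.N430.CLT.Slutsky
import Pool.Agent.Erdos456.Mertens

/-!
# The central limit theorem for sums over primes of local functions of size `1 / √p`
-/

set_option autoImplicit false

namespace Pool.Agent.T9h58.LN

open Finset Filter Topology Pool.Agent.N430.CLT

/-- the central limit theorem, uniformly -/
theorem clt_unif (d : Dat) (hV : Tendsto (fun x => d.V x) atTop atTop) (t : ℝ) {ε : ℝ}
    (hε : 0 < ε) : ∃ K x₀ : ℕ, ∀ x N : ℕ, x₀ ≤ x → x ^ K ≤ N →
      |(#{m ∈ Icc 1 N | d.S x m / √(d.V x) ≤ t} : ℝ) / N - Phi t| ≤ ε := by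
  by_contra hcon
  push Not at hcon
  choose X N h1 h2 h3 using hcon
  -- the starting points
  let s : ℕ → ℕ := fun j => Nat.rec 1 (fun j y => X j y + 1) j
  have hs1 : ∀ j, s (j + 1) = X j (s j) + 1 := fun j => rfl
  let x : ℕ → ℕ := fun j => X j (s j)
  have hx1 : ∀ j, s j ≤ x j := fun j => h1 j (s j)
  have hx2 : StrictMono x := strictMono_nat_of_lt_succ fun j => by
    have := hx1 (j + 1)
    rw [hs1] at this
    exact this
  let N' : ℕ → ℕ := Function.extend x (fun j => N j (s j)) (fun y => y ^ y)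
  have hN' : ∀ j, N' (x j) = N j (s j) := fun j => hx2.injective.extend_apply _ _ j
  have hN : ∀ K : ℕ, ∀ᶠ y : ℕ in atTop, y ^ K ≤ N' y := by
    intro K
    filter_upwards [eventually_ge_atTop (max (x K) (max K 1))] with y hy
    have hyx : x K ≤ y := (le_max_left _ _).trans hy
    have hyK : K ≤ y := ((le_max_left _ _).trans (le_max_right _ _)).trans hy
    have hy1 : 1 ≤ y := ((le_max_right _ _).trans (le_max_right _ _)).trans hy
    by_cases h : ∃ j, x j = y
    · obtain ⟨j, rfl⟩ := h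
      rw [hN']
      have hKj : K ≤ j := hx2.le_iff_le.1 hyx
      exact (Nat.pow_le_pow_right hy1 hKj).trans (h2 j (s j))
    · have e : N' y = y ^ y := Function.extend_apply' _ _ _ h
      rw [e]
      exact Nat.pow_le_pow_right hy1 hyK
  have key := clt d N' hN hV t
  rw [Metric.tendsto_atTop] at key
  obtain ⟨n, hn⟩ := key ε hε
  have h4 := hn (x n) (hx2.id_le n)
  rw [hN', Real.dist_eq] at h4
  exact absurd h4 (not_lt.2 (h3 n (s n)).le)

/-! ### mean squares -/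

lemma avg_const_le {N : ℕ} (F : ℕ → ℝ) {c : ℝ} (hc : 0 ≤ c) (h : ∀ m, F m ≤ c) : avg N F ≤ c := by
  rcases Nat.eq_zero_or_pos N with h0 | h0
  · subst h0
    unfold avg
    simpa using hc
  · have := avg_mono (N := N) F (fun _ => c) h
    rwa [avg_const h0] at this

lemma avgP_sub_const {p : ℕ} (hp : 0 < p) (F : ℕ → ℝ) (c : ℝ) :
    avgP p (fun m => F m - c) = avgP p F - c := by
  rw [avgP_sub', avgP_const hp]

/-- two primes -/
lemma avgP_two {p q : ℕ} (hp : p.Prime) (hq : q.Prime) (hpq : p ≠ q) {F H : ℕ → ℝ}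
    (hF : ∀ m, F (m + p) = F m) (hH : ∀ m, H (m + q) = H m) (hF0 : avgP p F = 0) :
    avgP (p * q) (fun m => F m * H m) = 0 := by
  unfold avgP at hF0 ⊢
  rw [sum_coprime hF hH ((Nat.coprime_primes hp hq).2 hpq) hq.pos]
  have hp0 : (p : ℝ) ≠ 0 := by exact_mod_cast hp.ne_zero
  rw [div_eq_zero_iff] at hF0
  rcases hF0 with h | h
  · rw [h, zero_mul, zero_div]
  · exact absurd h hp0

/-- the mean square of a sum of centred local functions -/
lemma mean_square {N x : ℕ} (hN : 0 < N) (T : Finset ℕ) (hT : ∀ p ∈ T, p.Prime ∧ p ≤ x)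
    (H : ℕ → ℕ → ℝ) (hper : ∀ p ∈ T, ∀ m, H p (m + p) = H p m)
    (hbd : ∀ p ∈ T, ∀ m, |H p m| ≤ 1 / √p) (hmean : ∀ p ∈ T, avgP p (H p) = 0)
    (hxN : x ^ 3 ≤ N) :
    avg N (fun m => (∑ p ∈ T, H p m) ^ 2) ≤ ∑ p ∈ T, 1 / (p : ℝ) + 2 := by
  have hN0 : (0 : ℝ) < N := by exact_mod_cast hN
  have e1 : ∀ m, (∑ p ∈ T, H p m) ^ 2 = ∑ p ∈ T, ∑ q ∈ T, H p m * H q m := by
    intro m
    rw [pow_two, sum_mul_sum]
  simp only [e1]
  rw [avg_sum]
  have e2 : ∀ p ∈ T, avg N (fun m => ∑ q ∈ T, H p m * H q m) ≤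
      1 / (p : ℝ) + ∑ q ∈ T, 2 * (√p * √q) / N := by
    intro p hp
    rw [avg_sum]
    obtain ⟨hpp, hpx⟩ := hT p hp
    have hp0 : (0 : ℝ) < p := by exact_mod_cast hpp.pos
    have hsp : 0 < √(p : ℝ) := Real.sqrt_pos.2 hp0
    rw [← add_sum_erase _ _ hp]
    refine add_le_add ?_ ?_
    · refine avg_const_le _ (by positivity) fun m => ?_
      have h1 := hbd p hp m
      have h2 : H p m * H p m = |H p m| * |H p m| := (abs_mul_abs_self _).symm
      rw [h2]
      calc |H p m| * |H p m| ≤ (1 / √p) * (1 / √p) :=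
            mul_le_mul h1 h1 (abs_nonneg _) (by positivity)
        _ = 1 / p := by
            rw [div_mul_div_comm, one_mul, Real.mul_self_sqrt hp0.le]
    · refine (sum_le_sum (f := fun q => avg N (fun m => H p m * H q m))
        (g := fun q => 2 * (√(p : ℝ) * √q) / N) fun q hq => ?_).trans ?_
      · rw [mem_erase] at hq
        obtain ⟨hqp, hqT⟩ := hq
        obtain ⟨hqq, hqx⟩ := hT q hqT
        have hq0 : (0 : ℝ) < q := by exact_mod_cast hqq.pos
        have hsq : 0 < √(q : ℝ) := Real.sqrt_pos.2 hq0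
        -- normalise
        have e3 : ∀ m, H p m * H q m =
            (1 / (√p * √q)) * ((√p * H p m) * (√q * H q m)) := by
          intro m
          field_simp
        simp only [e3]
        rw [avg_mul_left]
        have hb : ∀ m, ‖(√p * H p m) * (√q * H q m)‖ ≤ 1 := by
          intro m
          rw [norm_mul, norm_mul, norm_mul, Real.norm_eq_abs, Real.norm_eq_abs, Real.norm_eq_abs,
            Real.norm_eq_abs, abs_of_pos hsp, abs_of_pos hsq]
          have g1 : √(p : ℝ) * |H p m| ≤ 1 := by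
            have := mul_le_mul_of_nonneg_left (hbd p hp m) hsp.le
            rwa [mul_one_div, div_self hsp.ne'] at this
          have g2 : √(q : ℝ) * |H q m| ≤ 1 := by
            have := mul_le_mul_of_nonneg_left (hbd q hqT m) hsq.le
            rwa [mul_one_div, div_self hsq.ne'] at this
          exact mul_le_one₀ g1 (by positivity) g2
        have hz : avgP (p * q) (fun m => (√p * H p m) * (√q * H q m)) = 0 := by
          have e4 : ∀ m, (√p * H p m) * (√q * H q m) = (√p * √q) * (H p m * H q m) := fun m => by ring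
          simp only [e4]
          rw [avgP_mul_left, avgP_two hpp hqq (Ne.symm hqp) (hper p hp) (hper q hqT) (hmean p hp),
            mul_zero]
        have hper2 : ∀ m, (√(p : ℝ) * H p (m + p * q)) * (√q * H q (m + p * q)) =
            (√p * H p m) * (√q * H q m) := by
          intro m
          rw [per_mul (hper p hp) q m, mul_comm p q, per_mul (hper q hqT) p m]
        have h5 := avg_sub_avgP (𝕜 := ℝ) (M := p * q) (N := N)
          (F := fun m => (√p * H p m) * (√q * H q m)) hper2 (Nat.mul_pos hpp.pos hqq.pos) hN hb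
        rw [hz, sub_zero, Real.norm_eq_abs] at h5
        have h6 := (abs_le.1 h5).2
        calc 1 / (√(p : ℝ) * √q) * avg N (fun m => (√p * H p m) * (√q * H q m))
            ≤ 1 / (√(p : ℝ) * √q) * (2 * ((p * q : ℕ) : ℝ) / N) :=
              mul_le_mul_of_nonneg_left h6 (by positivity)
          _ = 2 * (√p * √q) / N := by
              have g1 : √(p : ℝ) * √p = p := Real.mul_self_sqrt hp0.le
              have g2 : √(q : ℝ) * √q = q := Real.mul_self_sqrt hq0.le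
              have g3 : ((p * q : ℕ) : ℝ) = (√p * √q) * (√p * √q) := by
                push_cast
                linear_combination -(√(q : ℝ) * √q) * g1 - (p : ℝ) * g2
              rw [g3]
              field_simp
      · exact sum_le_sum_of_subset_of_nonneg (erase_subset _ _) fun q _ _ => by positivity
  refine (sum_le_sum e2).trans ?_
  rw [sum_add_distrib]
  gcongr
  have e5 : ∑ p ∈ T, ∑ q ∈ T, 2 * (√(p : ℝ) * √q) / N = 2 * (∑ p ∈ T, √(p : ℝ)) ^ 2 / N := by
    rw [pow_two, sum_mul_sum, mul_sum, sum_div]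
    refine sum_congr rfl fun p _ => ?_
    rw [mul_sum, sum_div]
  rw [e5, div_le_iff₀ hN0]
  have h7 : ∑ p ∈ T, √(p : ℝ) ≤ x * √x := by
    have hTx : T ⊆ Icc 1 x := fun p hp => mem_Icc.2 ⟨(hT p hp).1.one_le, (hT p hp).2⟩
    calc ∑ p ∈ T, √(p : ℝ) ≤ ∑ _p ∈ T, √(x : ℝ) := sum_le_sum fun p hp => by
          apply Real.sqrt_le_sqrt
          exact_mod_cast (hT p hp).2
      _ = T.card * √x := by rw [sum_const, nsmul_eq_mul]
      _ ≤ x * √x := by
          apply mul_le_mul_of_nonneg_right _ (Real.sqrt_nonneg _)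
          have := card_le_card hTx
          rw [Nat.card_Icc] at this
          exact_mod_cast (by omega : T.card ≤ x)
  have h8 : 0 ≤ ∑ p ∈ T, √(p : ℝ) := sum_nonneg fun p _ => Real.sqrt_nonneg _
  have h9 : (x * √(x : ℝ)) ^ 2 = (x : ℝ) ^ 3 := by
    rw [mul_pow, Real.sq_sqrt (Nat.cast_nonneg x)]; ring
  have h10 : (x : ℝ) ^ 3 ≤ N := by exact_mod_cast hxN
  have h11 := pow_le_pow_left₀ h8 h7 2
  linarith

/-! ### the local functions -/

/-- local functions of size `1 / √p`, with the means `κ / p` and the mean squares `1 / p`, up to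
`C / p ^ (3 / 2)` -/
structure Loc where
  G : ℕ → ℕ → ℝ
  κ : ℝ
  C : ℝ
  hC : 1 ≤ C
  per : ∀ p, p.Prime → ∀ m, G p (m + p) = G p m
  bd : ∀ p, p.Prime → ∀ m, |G p m| ≤ C / √p
  mean : ∀ p, p.Prime → |avgP p (G p) - κ / p| ≤ C / (p * √p)
  sq : ∀ p, p.Prime → |avgP p (fun m => G p m ^ 2) - 1 / p| ≤ C / (p * √p)

lemma abs_avgP_le {p : ℕ} (hp : 0 < p) {F : ℕ → ℝ} {c : ℝ} (h : ∀ m, |F m| ≤ c) :
    |avgP p F| ≤ c := by
  have := norm_avgP_le (N := p) F (fun _ => c) (fun m => by rw [Real.norm_eq_abs]; exact h m)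
  rwa [avgP_const hp, Real.norm_eq_abs] at this

/-- the normalised and centred local functions -/
noncomputable def Loc.dat (l : Loc) : Dat where
  X p m := (l.G p m - avgP p (l.G p)) / (2 * l.C)
  per p hp m := by rw [l.per p hp m]
  bd p hp m := by
    have hC0 : 0 < l.C := lt_of_lt_of_le one_pos l.hC
    have hp1 : 1 ≤ √(p : ℝ) := by
      rw [Real.one_le_sqrt]
      exact_mod_cast hp.one_le
    have h1 : l.C / √p ≤ l.C := div_le_self hC0.le hp1
    have h2 := abs_avgP_le hp.pos (l.bd p hp)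
    rw [abs_div, abs_of_pos (by linarith : 0 < 2 * l.C), div_le_one (by linarith)]
    refine (abs_sub _ _).trans ?_
    have := l.bd p hp m
    linarith
  mean p hp := by
    have e : ∀ m, (l.G p m - avgP p (l.G p)) / (2 * l.C) =
        (1 / (2 * l.C)) * (l.G p m - avgP p (l.G p)) := fun m => by ring
    simp only [e]
    rw [avgP_mul_left, avgP_sub_const hp.pos, sub_self, mul_zero]

lemma Loc.X_bd (l : Loc) {p : ℕ} (hp : p.Prime) (m : ℕ) : |l.dat.X p m| ≤ 1 / √p := by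
  have hC0 : 0 < l.C := lt_of_lt_of_le one_pos l.hC
  have hp0 : (0 : ℝ) < p := by exact_mod_cast hp.pos
  have hsp : 0 < √(p : ℝ) := Real.sqrt_pos.2 hp0
  have h2 := abs_avgP_le hp.pos (l.bd p hp)
  show |(l.G p m - avgP p (l.G p)) / (2 * l.C)| ≤ 1 / √p
  rw [abs_div, abs_of_pos (by linarith : 0 < 2 * l.C), div_le_iff₀ (by linarith)]
  refine (abs_sub _ _).trans ?_
  have h3 := l.bd p hp m
  have e : 1 / √(p : ℝ) * (2 * l.C) = l.C / √p + l.C / √p := by ring
  rw [e]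
  linarith

/-- the local variances -/
lemma Loc.v_near (l : Loc) {p : ℕ} (hp : p.Prime) :
    |4 * l.C ^ 2 * l.dat.v p - 1 / p| ≤ (l.C + (|l.κ| + l.C) ^ 2) / (p * √p) := by
  have hC0 : 0 < l.C := lt_of_lt_of_le one_pos l.hC
  have hp0 : (0 : ℝ) < p := by exact_mod_cast hp.pos
  have hp1 : (1 : ℝ) ≤ p := by exact_mod_cast hp.one_le
  have hsp : 0 < √(p : ℝ) := Real.sqrt_pos.2 hp0
  have hs1 : 1 ≤ √(p : ℝ) := by rw [Real.one_le_sqrt]; exact hp1
  have hss : √(p : ℝ) * √(p : ℝ) = p := Real.mul_self_sqrt hp0.le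
  set μ : ℝ := avgP p (l.G p) with hμ
  have e1 : 4 * l.C ^ 2 * l.dat.v p = avgP p (fun m => l.G p m ^ 2) - μ ^ 2 := by
    unfold Dat.v
    have e2 : ∀ m, l.dat.X p m ^ 2 = (1 / (4 * l.C ^ 2)) * (l.G p m ^ 2 - 2 * μ * l.G p m + μ ^ 2) := by
      intro m
      show ((l.G p m - avgP p (l.G p)) / (2 * l.C)) ^ 2 = _
      rw [← hμ]
      field_simp
      ring
    simp only [e2]
    rw [avgP_mul_left, avgP_add, avgP_sub', avgP_const hp.pos, avgP_mul_left, ← hμ]
    field_simp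
    ring
  have h1 : |μ| ≤ (|l.κ| + l.C) / p := by
    have h2 := l.mean p hp
    rw [← hμ] at h2
    have h3 : l.C / (p * √p) ≤ l.C / p := by
      apply div_le_div_of_nonneg_left hC0.le hp0
      nlinarith
    have h4 : |l.κ / (p : ℝ)| = |l.κ| / p := by rw [abs_div, abs_of_pos hp0]
    calc |μ| = |(μ - l.κ / p) + l.κ / p| := by congr 1; ring
      _ ≤ l.C / (p * √p) + |l.κ| / p := by
          rw [← h4]; exact (abs_add_le _ _).trans (add_le_add h2 le_rfl)
      _ ≤ (|l.κ| + l.C) / p := by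
          rw [add_div]; linarith
  have h5 : μ ^ 2 ≤ (|l.κ| + l.C) ^ 2 / (p * √p) := by
    calc μ ^ 2 = |μ| ^ 2 := (sq_abs μ).symm
      _ ≤ ((|l.κ| + l.C) / p) ^ 2 := pow_le_pow_left₀ (abs_nonneg _) h1 2
      _ = (|l.κ| + l.C) ^ 2 / (p * p) := by rw [div_pow]; ring_nf
      _ ≤ (|l.κ| + l.C) ^ 2 / (p * √p) := by
          apply div_le_div_of_nonneg_left (by positivity) (by positivity)
          have : √(p : ℝ) ≤ p := by nlinarith
          exact mul_le_mul_of_nonneg_left this hp0.le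
  rw [e1]
  calc |avgP p (fun m => l.G p m ^ 2) - μ ^ 2 - 1 / p|
      = |(avgP p (fun m => l.G p m ^ 2) - 1 / p) - μ ^ 2| := by congr 1; ring
    _ ≤ l.C / (p * √p) + (|l.κ| + l.C) ^ 2 / (p * √p) := by
        refine (abs_sub _ _).trans (add_le_add (l.sq p hp) ?_)
        rw [abs_of_nonneg (sq_nonneg μ)]
        exact h5
    _ = _ := by rw [add_div]

lemma sum_p32 : ∃ K : ℝ, 0 ≤ K ∧ ∀ P : Finset ℕ, ∑ p ∈ P, 1 / ((p : ℝ) * √p) ≤ K := by
  have hs : Summable (fun n : ℕ => 1 / (n : ℝ) ^ (3 / 2 : ℝ)) :=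
    Real.summable_one_div_nat_rpow.2 (by norm_num)
  have e : ∀ n : ℕ, 1 / ((n : ℝ) * √n) = 1 / (n : ℝ) ^ (3 / 2 : ℝ) := by
    intro n
    congr 1
    rcases Nat.eq_zero_or_pos n with h | h
    · rw [h, Nat.cast_zero, zero_mul, Real.zero_rpow (by norm_num)]
    · have hn : (0 : ℝ) < n := by exact_mod_cast h
      rw [Real.sqrt_eq_rpow, show (3 / 2 : ℝ) = 1 + 1 / 2 by norm_num, Real.rpow_add hn,
        Real.rpow_one]
  refine ⟨∑' n : ℕ, 1 / (n : ℝ) ^ (3 / 2 : ℝ), tsum_nonneg fun n => by positivity, fun P => ?_⟩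
  rw [sum_congr rfl (fun p _ => e p)]
  exact hs.sum_le_tsum _ fun i _ => by positivity

/-- the theorem of Mertens -/
lemma mertens : ∃ K : ℝ, 0 ≤ K ∧ ∀ x : ℕ, 3 ≤ x →
    |∑ p ∈ PP x, (1 : ℝ) / p - Real.log (Real.log x)| ≤ K := by
  obtain ⟨C, hC⟩ := Pool.Agent.Erdos456.Mert.mertens_inv
  refine ⟨C, (abs_nonneg _).trans (hC 3 le_rfl), fun x hx => ?_⟩
  have e : PP x = (Icc 1 x).filter Nat.Prime := by
    ext p
    rw [mem_PP, mem_filter, mem_Icc]
    exact ⟨fun h => ⟨⟨h.2.one_le, h.1⟩, h.2⟩, fun h => ⟨h.1.2, h.2⟩⟩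
  rw [e]
  exact hC x hx

/-- the variance -/
lemma Loc.V_near (l : Loc) : ∃ K : ℝ, 0 ≤ K ∧ ∀ x : ℕ, 3 ≤ x →
    |4 * l.C ^ 2 * l.dat.V x - Real.log (Real.log x)| ≤ K := by
  obtain ⟨K1, hK1, h1⟩ := sum_p32
  obtain ⟨K2, hK2, h2⟩ := mertens
  have hC0 : 0 < l.C := lt_of_lt_of_le one_pos l.hC
  refine ⟨(l.C + (|l.κ| + l.C) ^ 2) * K1 + K2, by positivity, fun x hx => ?_⟩
  have h3 : |4 * l.C ^ 2 * l.dat.V x - ∑ p ∈ PP x, (1 : ℝ) / p| ≤
      (l.C + (|l.κ| + l.C) ^ 2) * K1 := by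
    unfold Dat.V
    rw [mul_sum, ← sum_sub_distrib]
    refine (abs_sum_le_sum_abs _ _).trans ?_
    calc ∑ p ∈ PP x, |4 * l.C ^ 2 * l.dat.v p - 1 / p|
        ≤ ∑ p ∈ PP x, (l.C + (|l.κ| + l.C) ^ 2) * (1 / (p * √p)) := by
          refine sum_le_sum fun p hp => ?_
          rw [mul_one_div]
          exact l.v_near (mem_PP.1 hp).2
      _ = (l.C + (|l.κ| + l.C) ^ 2) * ∑ p ∈ PP x, 1 / ((p : ℝ) * √p) := by rw [mul_sum]
      _ ≤ _ := mul_le_mul_of_nonneg_left (h1 _) (by positivity)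
  have e : 4 * l.C ^ 2 * l.dat.V x - Real.log (Real.log x) =
      (4 * l.C ^ 2 * l.dat.V x - ∑ p ∈ PP x, (1 : ℝ) / p) +
        (∑ p ∈ PP x, (1 : ℝ) / p - Real.log (Real.log x)) := by ring
  rw [e]
  exact (abs_add_le _ _).trans (add_le_add h3 (h2 x hx))

/-- the mean -/
lemma Loc.mean_near (l : Loc) : ∃ K : ℝ, 0 ≤ K ∧ ∀ x : ℕ, 3 ≤ x →
    |∑ p ∈ PP x, avgP p (l.G p) - l.κ * Real.log (Real.log x)| ≤ K := by
  obtain ⟨K1, hK1, h1⟩ := sum_p32
  obtain ⟨K2, hK2, h2⟩ := mertens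
  have hC0 : 0 < l.C := lt_of_lt_of_le one_pos l.hC
  refine ⟨l.C * K1 + |l.κ| * K2, by positivity, fun x hx => ?_⟩
  have h3 : |∑ p ∈ PP x, avgP p (l.G p) - ∑ p ∈ PP x, l.κ / (p : ℝ)| ≤ l.C * K1 := by
    rw [← sum_sub_distrib]
    refine (abs_sum_le_sum_abs _ _).trans ?_
    calc ∑ p ∈ PP x, |avgP p (l.G p) - l.κ / p| ≤ ∑ p ∈ PP x, l.C * (1 / (p * √p)) := by
          refine sum_le_sum fun p hp => ?_
          rw [mul_one_div]
          exact l.mean p (mem_PP.1 hp).2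
      _ = l.C * ∑ p ∈ PP x, 1 / ((p : ℝ) * √p) := by rw [mul_sum]
      _ ≤ _ := mul_le_mul_of_nonneg_left (h1 _) hC0.le
  have e2 : ∑ p ∈ PP x, l.κ / (p : ℝ) = l.κ * ∑ p ∈ PP x, (1 : ℝ) / p := by
    rw [mul_sum]
    exact sum_congr rfl fun p _ => by ring
  have e : ∑ p ∈ PP x, avgP p (l.G p) - l.κ * Real.log (Real.log x) =
      (∑ p ∈ PP x, avgP p (l.G p) - ∑ p ∈ PP x, l.κ / (p : ℝ)) +
        l.κ * (∑ p ∈ PP x, (1 : ℝ) / p - Real.log (Real.log x)) := by rw [e2]; ring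
  rw [e]
  refine (abs_add_le _ _).trans (add_le_add h3 ?_)
  rw [abs_mul]
  exact mul_le_mul_of_nonneg_left (h2 x hx) (abs_nonneg _)

lemma tendsto_loglog : Tendsto (fun x : ℕ => Real.log (Real.log x)) atTop atTop :=
  Real.tendsto_log_atTop.comp (Real.tendsto_log_atTop.comp tendsto_natCast_atTop_atTop)

lemma Loc.V_tendsto (l : Loc) : Tendsto (fun x => l.dat.V x) atTop atTop := by
  obtain ⟨K, hK, h⟩ := l.V_near
  have hC0 : 0 < l.C := lt_of_lt_of_le one_pos l.hC
  rw [tendsto_atTop]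
  intro B
  filter_upwards [tendsto_loglog.eventually_ge_atTop (4 * l.C ^ 2 * B + K), eventually_ge_atTop 3]
    with x h1 h2
  have h3 := (abs_le.1 (h x h2)).1
  have h4 : 4 * l.C ^ 2 * B ≤ 4 * l.C ^ 2 * l.dat.V x := by linarith
  exact le_of_mul_le_mul_left h4 (by positivity)

/-! ### the central limit theorem -/

/-- the point at which the sum is cut -/
lemma cut {G x : ℕ} (hG : 1 ≤ G) {B : ℕ} (hB : 3 ≤ B) (hx : (B + 1) ^ G ≤ x) :
    ∃ y : ℕ, B ≤ y ∧ y ^ G ≤ x ∧ y ≤ x ∧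
      Real.log (Real.log x) - Real.log (2 * G) ≤ Real.log (Real.log y) := by
  have hG0 : (0 : ℝ) < G := by exact_mod_cast hG
  have hx1 : 1 ≤ x := le_trans Nat.one_le_two_pow (le_trans (by
    calc 2 ^ G ≤ (B + 1) ^ G := Nat.pow_le_pow_left (by omega) G) hx)
  have hx0 : (0 : ℝ) < x := by exact_mod_cast hx1
  set u : ℝ := (x : ℝ) ^ (1 / (G : ℝ)) with hu
  have hu0 : 0 < u := Real.rpow_pos_of_pos hx0 _
  have huG : u ^ G = x := by
    rw [hu, ← Real.rpow_natCast, ← Real.rpow_mul hx0.le, one_div, inv_mul_cancel₀ hG0.ne',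
      Real.rpow_one]
  have huB : (B : ℝ) + 1 ≤ u := by
    have h1 : ((B : ℝ) + 1) ^ G ≤ u ^ G := by
      rw [huG]; exact_mod_cast hx
    exact le_of_pow_le_pow_left₀ (by omega) hu0.le h1
  refine ⟨⌊u⌋₊, ?_, ?_, ?_, ?_⟩
  · apply Nat.le_floor
    linarith
  · have h1 : (⌊u⌋₊ : ℝ) ^ G ≤ u ^ G := pow_le_pow_left₀ (Nat.cast_nonneg _) (Nat.floor_le hu0.le) G
    rw [huG] at h1
    exact_mod_cast h1
  · have h1 : (⌊u⌋₊ : ℝ) ^ G ≤ x := by
      rw [← huG]
      exact pow_le_pow_left₀ (Nat.cast_nonneg _) (Nat.floor_le hu0.le) G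
    have h2 : ⌊u⌋₊ ^ G ≤ x := by exact_mod_cast h1
    exact (Nat.le_self_pow (by omega) _).trans h2
  · have hB3 : (3 : ℝ) ≤ B := by exact_mod_cast hB
    have h1 : √u ≤ ⌊u⌋₊ := by
      have h2 := (Nat.lt_floor_add_one u).le
      have h3 : √u * √u = u := Real.mul_self_sqrt hu0.le
      have h4 : 2 ≤ √u := by
        apply Real.le_sqrt_of_sq_le
        linarith
      nlinarith
    have h5 : Real.log x / (2 * G) ≤ Real.log ⌊u⌋₊ := by
      have h6 : Real.log √u ≤ Real.log ⌊u⌋₊ := Real.log_le_log (Real.sqrt_pos.2 hu0) h1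
      rw [Real.log_sqrt hu0.le, hu, Real.log_rpow hx0] at h6
      refine le_trans (le_of_eq ?_) h6
      field_simp
    have hlx : 0 < Real.log x := by
      apply Real.log_pos
      have : (B : ℝ) + 1 ≤ x := by
        have h7 : B + 1 ≤ x := (Nat.le_self_pow (by omega) _).trans hx
        exact_mod_cast h7
      linarith
    rw [← Real.log_div hlx.ne' (by positivity)]
    exact Real.log_le_log (by positivity) h5

lemma sq_add_le (u w c K : ℝ) (h : |u| ≤ K) :
    (u + 2 * c * w) ^ 2 ≤ 2 * K ^ 2 + 8 * c ^ 2 * w ^ 2 := by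
  have h1 : u ^ 2 ≤ K ^ 2 := by
    rw [← sq_abs u]
    exact pow_le_pow_left₀ (abs_nonneg _) h 2
  have h2 := sq_nonneg (u - 2 * c * w)
  linarith

/-- **the central limit theorem** for the sum over the primes `p ≤ x` of local functions, `m ≤ N`,
`x ^ 3 ≤ N` -/
theorem loc_clt (l : Loc) (t : ℝ) {ε : ℝ} (hε : 0 < ε) : ∃ x₀ : ℕ, ∀ x N : ℕ, x₀ ≤ x → x ^ 3 ≤ N →
    |(#{m ∈ Icc 1 N | ∑ p ∈ PP x, l.G p m ≤
      l.κ * Real.log (Real.log x) + t * √(Real.log (Real.log x))} : ℝ) / N - Phi t| ≤ ε := by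
  have hC0 : 0 < l.C := lt_of_lt_of_le one_pos l.hC
  set ε' : ℝ := ε / 4 with hε'
  have hε'0 : 0 < ε' := by positivity
  obtain ⟨Ka, xa, ha⟩ := clt_unif l.dat l.V_tendsto (t + ε') hε'0
  obtain ⟨Kb, xb, hb⟩ := clt_unif l.dat l.V_tendsto (t - ε') hε'0
  obtain ⟨K1, hK1, hV⟩ := l.V_near
  obtain ⟨K2, hK2, hM⟩ := l.mean_near
  obtain ⟨K3, hK3, hMe⟩ := mertens
  set G : ℕ := max (max Ka Kb) 1 with hG
  have hG1 : 1 ≤ G := le_max_right _ _
  have hGa : Ka ≤ G := (le_max_left _ _).trans (le_max_left _ _)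
  have hGb : Kb ≤ G := (le_max_right _ _).trans (le_max_left _ _)
  set B : ℕ := max (max xa xb) 3 with hB
  have hB3 : 3 ≤ B := le_max_right _ _
  set δ : ℝ := min (1 / 2) (ε' / (4 * (|t| + 1))) with hδ
  have hδ0 : 0 < δ := lt_min (by norm_num) (by positivity)
  have hδ1 : δ ≤ 1 / 2 := min_le_left _ _
  have hδ2 : (|t| + 1) * δ ≤ ε' / 4 := by
    have : δ ≤ ε' / (4 * (|t| + 1)) := min_le_right _ _
    rw [le_div_iff₀ (by positivity)] at this
    linarith
  set η : ℝ := ε' / 4 with hη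
  have hη0 : 0 < η := by positivity
  have hlG : 0 ≤ Real.log (2 * G) := by
    apply Real.log_nonneg
    have : (1 : ℝ) ≤ G := by exact_mod_cast hG1
    linarith
  set K4 : ℝ := 2 * K2 ^ 2 + 8 * l.C ^ 2 * (2 * K3 + Real.log (2 * G) + 2) with hK4
  have hK40 : 0 ≤ K4 := by positivity
  obtain ⟨x₁, hx₁⟩ := eventually_atTop.1 (tendsto_loglog.eventually_ge_atTop
    (max 1 (max ((K1 + Real.log (2 * G)) / δ) (K4 / (η ^ 2 * ε')))))
  refine ⟨max ((B + 1) ^ G) x₁, fun x N hx hN => ?_⟩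
  obtain ⟨y, hy1, hy2, hy3, hy4⟩ := cut hG1 hB3 ((le_max_left _ _).trans hx)
  have hLL := hx₁ x ((le_max_right _ _).trans hx)
  set LL : ℝ := Real.log (Real.log x) with hLLd
  have hLL1 : 1 ≤ LL := (le_max_left _ _).trans hLL
  have hLL2 : (K1 + Real.log (2 * G)) / δ ≤ LL :=
    ((le_max_left _ _).trans (le_max_right _ _)).trans hLL
  have hLL3 : K4 / (η ^ 2 * ε') ≤ LL := ((le_max_right _ _).trans (le_max_right _ _)).trans hLL
  have hLL0 : 0 < LL := by linarith
  have hsL : 0 < √LL := Real.sqrt_pos.2 hLL0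
  have hsLL : √LL * √LL = LL := Real.mul_self_sqrt hLL0.le
  have hy0 : 3 ≤ y := hB3.trans hy1
  have hx3 : 3 ≤ x := hy0.trans hy3
  have hN1 : 0 < N := by
    have : 0 < x ^ 3 := by positivity
    omega
  have hN0 : (0 : ℝ) < N := by exact_mod_cast hN1
  -- the variance
  set W : ℝ := 4 * l.C ^ 2 * l.dat.V y with hW
  have hlly : Real.log (Real.log y) ≤ LL := by
    have h1 : (3 : ℝ) ≤ y := by exact_mod_cast hy0
    have h2 : 0 < Real.log y := Real.log_pos (by linarith)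
    apply Real.log_le_log h2
    apply Real.log_le_log (by linarith)
    exact_mod_cast hy3
  have hWL : |W - LL| ≤ K1 + Real.log (2 * G) := by
    have h1 := hV y hy0
    rw [← hW] at h1
    rw [abs_le] at h1 ⊢
    constructor <;> linarith [h1.1, h1.2]
  have hWL2 : |W - LL| ≤ δ * LL := by
    rw [div_le_iff₀ hδ0] at hLL2
    linarith
  have hW0 : 0 < W := by
    have := (abs_le.1 hWL2).1
    nlinarith
  have hsW : 0 < √W := Real.sqrt_pos.2 hW0
  have hsWL : |√W - √LL| ≤ δ * √LL := by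
    have h1 : (√W - √LL) * (√W + √LL) = W - LL := by
      have : √W * √W = W := Real.mul_self_sqrt hW0.le
      nlinarith
    have h2 : |√W - √LL| * √LL ≤ δ * √LL * √LL := by
      calc |√W - √LL| * √LL ≤ |√W - √LL| * (√W + √LL) :=
            mul_le_mul_of_nonneg_left (by linarith) (abs_nonneg _)
        _ = |W - LL| := by
            rw [← h1, abs_mul, abs_of_pos (by linarith : 0 < √W + √LL)]
        _ ≤ δ * LL := hWL2
        _ = δ * √LL * √LL := by rw [mul_assoc, hsLL]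
    exact le_of_mul_le_mul_right h2 hsL
  have hsV : √W = 2 * l.C * √(l.dat.V y) := by
    rw [hW, Real.sqrt_mul (by positivity), show (4 : ℝ) * l.C ^ 2 = (2 * l.C) ^ 2 by ring,
      Real.sqrt_sq (by positivity)]
  have hsV0 : 0 < √(l.dat.V y) := by
    by_contra hcon
    have : √(l.dat.V y) = 0 := le_antisymm (not_lt.1 hcon) (Real.sqrt_nonneg _)
    rw [this, mul_zero] at hsV
    linarith
  -- the rest
  set R : ℕ → ℝ := fun m => ∑ p ∈ PP x, l.G p m - l.κ * LL - 2 * l.C * l.dat.S y m with hR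
  have hRsq : avg N (fun m => R m ^ 2) ≤ K4 := by
    set T : Finset ℕ := PP x \ PP y with hT
    have hsub : PP y ⊆ PP x := by
      intro p hp
      rw [mem_PP] at hp ⊢
      exact ⟨hp.1.trans hy3, hp.2⟩
    have e1 : ∀ m, R m = (∑ p ∈ PP x, avgP p (l.G p) - l.κ * LL) +
        2 * l.C * ∑ p ∈ T, l.dat.X p m := by
      intro m
      have e2 : l.dat.S x m = ∑ p ∈ T, l.dat.X p m + l.dat.S y m := by
        unfold Dat.S
        rw [hT, sum_sdiff hsub]
      have e3 : 2 * l.C * l.dat.S x m = ∑ p ∈ PP x, l.G p m - ∑ p ∈ PP x, avgP p (l.G p) := by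
        unfold Dat.S
        rw [mul_sum, ← sum_sub_distrib]
        refine sum_congr rfl fun p _ => ?_
        show 2 * l.C * ((l.G p m - avgP p (l.G p)) / (2 * l.C)) = _
        field_simp
      have e4 : ∑ p ∈ T, l.dat.X p m = l.dat.S x m - l.dat.S y m := by rw [e2]; ring
      rw [hR, e4]
      simp only
      rw [mul_sub, e3]
      ring
    have h1 := hM x hx3
    rw [← hLLd] at h1
    have h2 := mean_square hN1 T (fun p hp => by
        rw [hT, Finset.mem_sdiff, mem_PP] at hp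
        exact ⟨hp.1.2, hp.1.1⟩) l.dat.X
      (fun p hp => l.dat.per p (by rw [hT, Finset.mem_sdiff, mem_PP] at hp; exact hp.1.2))
      (fun p hp => l.X_bd (by rw [hT, Finset.mem_sdiff, mem_PP] at hp; exact hp.1.2))
      (fun p hp => l.dat.mean p (by rw [hT, Finset.mem_sdiff, mem_PP] at hp; exact hp.1.2)) hN
    have h3 : ∑ p ∈ T, 1 / (p : ℝ) ≤ 2 * K3 + Real.log (2 * G) := by
      have e5 : ∑ p ∈ T, 1 / (p : ℝ) = ∑ p ∈ PP x, 1 / (p : ℝ) - ∑ p ∈ PP y, 1 / (p : ℝ) := by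
        rw [hT, ← sum_sdiff hsub]; ring
      have h4 := (abs_le.1 (hMe x hx3)).2
      have h5 := (abs_le.1 (hMe y hy0)).1
      rw [← hLLd] at h4
      rw [e5]
      linarith
    have h6 : avg N (fun m => R m ^ 2) ≤ 2 * K2 ^ 2 + 8 * l.C ^ 2 *
        avg N (fun m => (∑ p ∈ T, l.dat.X p m) ^ 2) := by
      have h7 : avg N (fun m => R m ^ 2) ≤
          avg N (fun m => 2 * K2 ^ 2 + 8 * l.C ^ 2 * (∑ p ∈ T, l.dat.X p m) ^ 2) := by
        refine avg_mono _ _ fun m => ?_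
        rw [e1 m]
        exact sq_add_le _ _ _ _ h1
      rw [avg_add, avg_const hN1, avg_mul_left] at h7
      exact h7
    rw [hK4]
    have h9 : avg N (fun m => (∑ p ∈ T, l.dat.X p m) ^ 2) ≤ 2 * K3 + Real.log (2 * G) + 2 := by
      linarith
    have h10 : 8 * l.C ^ 2 * avg N (fun m => (∑ p ∈ T, l.dat.X p m) ^ 2) ≤
        8 * l.C ^ 2 * (2 * K3 + Real.log (2 * G) + 2) :=
      mul_le_mul_of_nonneg_left h9 (by positivity)
    linarith
  -- the exceptions
  set Z : Finset ℕ := (Icc 1 N).filter (fun m => η * √LL < |R m|) with hZ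
  have hZc : (Z.card : ℝ) / N ≤ ε' := by
    have h1 : (Z.card : ℝ) * (η ^ 2 * LL) ≤ ∑ m ∈ Icc 1 N, R m ^ 2 := by
      calc (Z.card : ℝ) * (η ^ 2 * LL) = ∑ _m ∈ Z, η ^ 2 * LL := by rw [sum_const, nsmul_eq_mul]
        _ ≤ ∑ m ∈ Z, R m ^ 2 := by
            refine sum_le_sum fun m hm => ?_
            rw [hZ, mem_filter] at hm
            rw [← sq_abs (R m)]
            calc η ^ 2 * LL = (η * √LL) ^ 2 := by rw [mul_pow, Real.sq_sqrt hLL0.le]
              _ ≤ |R m| ^ 2 := pow_le_pow_left₀ (by positivity) hm.2.le 2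
        _ ≤ ∑ m ∈ Icc 1 N, R m ^ 2 :=
            sum_le_sum_of_subset_of_nonneg (filter_subset _ _) fun _ _ _ => sq_nonneg _
    have h2 : ∑ m ∈ Icc 1 N, R m ^ 2 ≤ K4 * N := by
      unfold avg at hRsq
      rwa [div_le_iff₀ hN0] at hRsq
    rw [div_le_iff₀ hN0]
    have h3 : K4 ≤ ε' * (η ^ 2 * LL) := by
      rw [div_le_iff₀ (by positivity)] at hLL3
      linarith
    have h4 : (Z.card : ℝ) * (η ^ 2 * LL) ≤ (ε' * N) * (η ^ 2 * LL) := by
      calc _ ≤ K4 * N := h1.trans h2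
        _ ≤ (ε' * (η ^ 2 * LL)) * N := mul_le_mul_of_nonneg_right h3 hN0.le
        _ = _ := by ring
    exact le_of_mul_le_mul_right h4 (by positivity)
  -- the comparison
  have hyK : ∀ K ≤ G, y ^ K ≤ N := by
    intro K hK
    calc y ^ K ≤ y ^ G := Nat.pow_le_pow_right (by omega) hK
      _ ≤ x := hy2
      _ ≤ x ^ 3 := Nat.le_self_pow (by norm_num) x
      _ ≤ N := hN
  have ga := ha y N (((le_max_left _ _).trans (le_max_left _ _)).trans hy1) (hyK Ka hGa)
  have gb := hb y N (((le_max_right _ _).trans (le_max_left _ _)).trans hy1) (hyK Kb hGb)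
  set E : Finset ℕ := {m ∈ Icc 1 N | ∑ p ∈ PP x, l.G p m ≤ l.κ * LL + t * √LL} with hE
  have q1 := (abs_le.1 hsWL).1
  have q2 := (abs_le.1 hsWL).2
  have q3 : |t * (√W - √LL)| ≤ |t| * (δ * √LL) := by
    rw [abs_mul]
    exact mul_le_mul_of_nonneg_left hsWL (abs_nonneg _)
  have q4 : |t| * (δ * √LL) + δ * √LL ≤ ε' / 4 * √LL := by
    calc |t| * (δ * √LL) + δ * √LL = ((|t| + 1) * δ) * √LL := by ring
      _ ≤ _ := mul_le_mul_of_nonneg_right hδ2 hsL.le
  have q5 : 1 / 2 * √LL ≤ √W := by nlinarith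
  have q6 := (abs_le.1 q3).1
  have q7 := (abs_le.1 q3).2
  have q8 : 0 ≤ δ * √LL := by positivity
  have q9 : ε' * (1 / 2 * √LL) ≤ ε' * √W := mul_le_mul_of_nonneg_left q5 hε'0.le
  have hup : (E.card : ℝ) ≤ (#{m ∈ Icc 1 N | l.dat.S y m / √(l.dat.V y) ≤ t + ε'} : ℝ) + Z.card := by
    have : E ⊆ {m ∈ Icc 1 N | l.dat.S y m / √(l.dat.V y) ≤ t + ε'} ∪ Z := by
      intro m hm
      rw [hE, mem_filter] at hm
      rw [mem_union]
      by_cases hz : m ∈ Z
      · exact Or.inr hz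
      · left
        rw [hZ, mem_filter, not_and, not_lt] at hz
        have hz' := (abs_le.1 (hz hm.1)).1
        rw [mem_filter]
        refine ⟨hm.1, ?_⟩
        rw [div_le_iff₀ hsV0]
        have h1 : 2 * l.C * l.dat.S y m ≤ t * √LL + η * √LL := by
          have e1 : R m = ∑ p ∈ PP x, l.G p m - l.κ * LL - 2 * l.C * l.dat.S y m := rfl
          linarith [hm.2]
        have h2 : t * √LL + η * √LL ≤ (t + ε') * √W := by
          rw [hη]
          nlinarith
        have h3 : 2 * l.C * l.dat.S y m ≤ 2 * l.C * ((t + ε') * √(l.dat.V y)) := by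
          calc _ ≤ (t + ε') * √W := h1.trans h2
            _ = _ := by rw [hsV]; ring
        exact le_of_mul_le_mul_left h3 (by positivity)
    have h4 := (card_le_card this).trans (card_union_le _ _)
    exact_mod_cast h4
  have hlow : (#{m ∈ Icc 1 N | l.dat.S y m / √(l.dat.V y) ≤ t - ε'} : ℝ) ≤ (E.card : ℝ) + Z.card := by
    have : {m ∈ Icc 1 N | l.dat.S y m / √(l.dat.V y) ≤ t - ε'} ⊆ E ∪ Z := by
      intro m hm
      rw [mem_filter] at hm
      rw [mem_union]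
      by_cases hz : m ∈ Z
      · exact Or.inr hz
      · left
        rw [hZ, mem_filter, not_and, not_lt] at hz
        have hz' := (abs_le.1 (hz hm.1)).2
        rw [hE, mem_filter]
        refine ⟨hm.1, ?_⟩
        have h0 := hm.2
        rw [div_le_iff₀ hsV0] at h0
        have h1 : 2 * l.C * l.dat.S y m ≤ (t - ε') * √W := by
          calc 2 * l.C * l.dat.S y m ≤ 2 * l.C * ((t - ε') * √(l.dat.V y)) :=
                mul_le_mul_of_nonneg_left h0 (by positivity)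
            _ = (t - ε') * √W := by rw [hsV]; ring
        have h2 : (t - ε') * √W + η * √LL ≤ t * √LL := by
          rw [hη]
          nlinarith
        have e1 : R m = ∑ p ∈ PP x, l.G p m - l.κ * LL - 2 * l.C * l.dat.S y m := rfl
        linarith
    have h4 := (card_le_card this).trans (card_union_le _ _)
    exact_mod_cast h4
  have l1 := Phi_lip (s := t) (t := t + ε') (by linarith)
  have l2 := Phi_lip (s := t - ε') (t := t) (by linarith)
  have ga' := (abs_le.1 ga).2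
  have gb' := (abs_le.1 gb).1
  have r1 : (E.card : ℝ) / N ≤
      (#{m ∈ Icc 1 N | l.dat.S y m / √(l.dat.V y) ≤ t + ε'} : ℝ) / N + (Z.card : ℝ) / N := by
    rw [← add_div]
    exact div_le_div_of_nonneg_right hup hN0.le
  have r2 : (#{m ∈ Icc 1 N | l.dat.S y m / √(l.dat.V y) ≤ t - ε'} : ℝ) / N ≤
      (E.card : ℝ) / N + (Z.card : ℝ) / N := by
    rw [← add_div]
    exact div_le_div_of_nonneg_right hlow hN0.le
  rw [abs_le]
  constructor <;> linarith

end Pool.Agent.T9h58.LN
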