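import Pool.Agent.R459.Bsd2

/-!
# Point counts of the curves `y² = x³ + a x + n` modulo `p`: first and second moment over `a`
-/

set_option autoImplicit false

namespace Pool.Agent.T9h58.LN

open Finset
open Pool.Agent.R459.Bsd

variable {p : ℕ} [Fact p.Prime]

lemma two_ne (hp : p ≠ 2) : (2 : ZMod p) ≠ 0 := by
  intro h0
  have : ((2 : ℕ) : ZMod p) = 0 := by exact_mod_cast h0
  rw [ZMod.natCast_eq_zero_iff] at this
  exact hp ((Nat.prime_dvd_prime_iff_eq (Fact.out : p.Prime) Nat.prime_two).1 this)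

lemma ch_lin_sum (hp : p ≠ 2) {x : ZMod p} (hx : x ≠ 0) (u : ZMod p) :
    ∑ a : ZMod p, ch p (u + a * x) = 0 := by
  rw [← ch_sum hp]
  refine Fintype.sum_equiv ((Equiv.mulRight₀ x hx).trans (Equiv.addLeft u)) _ _ fun a => ?_
  simp

/-- the first moment -/
lemma tr_mean' (hp : p ≠ 2) (n : ZMod p) : ∑ a : ZMod p, tr p a n = -(ch p n * p) := by
  unfold tr
  rw [sum_neg_distrib, sum_comm]
  congr 1
  rw [← add_sum_erase _ _ (mem_univ (0 : ZMod p))]
  have h1 : ∑ x ∈ univ.erase (0 : ZMod p), ∑ a : ZMod p, ch p (x ^ 3 + a * x + n) = 0 := by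
    apply sum_eq_zero
    intro x hx
    have hx0 : x ≠ 0 := (mem_erase.1 hx).1
    rw [← ch_lin_sum hp hx0 (x ^ 3 + n)]
    exact sum_congr rfl fun a _ => by congr 1; ring
  rw [h1, add_zero]
  have h2 : ∀ a : ZMod p, ch p ((0 : ZMod p) ^ 3 + a * 0 + n) = ch p n := fun a => by congr 1; ring
  rw [sum_congr rfl fun a _ => h2 a, sum_const, card_univ, ZMod.card, nsmul_eq_mul, mul_comm]

/-- the sums over `a` of the products of two characters -/
lemma inner_sum (hp : p ≠ 2) {n : ZMod p} (hn : n ≠ 0) (x x' : ZMod p) :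
    ∑ a : ZMod p, ch p (x ^ 3 + a * x + n) * ch p (x' ^ 3 + a * x' + n) =
      (if x = 0 ∧ x' = 0 then (p : ℝ) else 0) +
        ch p x * ch p x' * (if x ^ 2 + n / x = x' ^ 2 + n / x' then (p : ℝ) - 1 else -1) := by
  by_cases hx : x = 0
  · subst hx
    have h2 : ∀ a : ZMod p, ch p ((0 : ZMod p) ^ 3 + a * 0 + n) = ch p n := fun a => by
      congr 1; ring
    rw [sum_congr rfl fun a _ => by rw [h2 a], ← mul_sum, ch_zero, zero_mul, zero_mul, add_zero]
    by_cases hx' : x' = 0
    · subst hx'
      rw [sum_congr rfl fun a _ => h2 a, if_pos ⟨rfl, rfl⟩, sum_const, card_univ, ZMod.card,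
        nsmul_eq_mul, mul_left_comm, ch_sq hn, mul_one]
    · rw [if_neg (by tauto)]
      have h3 := ch_lin_sum hp hx' (x' ^ 3 + n)
      have h4 : ∑ a : ZMod p, ch p (x' ^ 3 + a * x' + n) = 0 := by
        rw [← h3]
        exact sum_congr rfl fun a _ => by congr 1; ring
      rw [h4, mul_zero]
  by_cases hx' : x' = 0
  · subst hx'
    have h2 : ∀ a : ZMod p, ch p ((0 : ZMod p) ^ 3 + a * 0 + n) = ch p n := fun a => by
      congr 1; ring
    rw [sum_congr rfl fun a _ => by rw [h2 a], ← sum_mul, ch_zero, mul_zero, zero_mul, add_zero,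
      if_neg (by tauto)]
    have h3 := ch_lin_sum hp hx (x ^ 3 + n)
    have h4 : ∑ a : ZMod p, ch p (x ^ 3 + a * x + n) = 0 := by
      rw [← h3]
      exact sum_congr rfl fun a _ => by congr 1; ring
    rw [h4, zero_mul]
  rw [if_neg (by tauto), zero_add, ← corr' hp, mul_sum]
  refine sum_congr rfl fun a _ => ?_
  have e1 : x ^ 3 + a * x + n = x * (x ^ 2 + n / x + a) := by field_simp; ring
  have e2 : x' ^ 3 + a * x' + n = x' * (x' ^ 2 + n / x' + a) := by field_simp; ring
  rw [e1, e2, ch_mul, ch_mul]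
  ring

open Classical in
/-- the sum over the curve `x x' (x + x') = n` -/
lemma curve_sum (hp : p ≠ 2) {n : ZMod p} (hn : n ≠ 0) :
    |∑ x : ZMod p, ∑ x' : ZMod p, (if x * x' * (x + x') = n then ch p x * ch p x' else 0)| ≤
      2 * √p + 1 := by
  have h2 : (2 : ZMod p) ≠ 0 := two_ne hp
  -- the substitution `x' = s - x`
  have h3 : ∀ x : ZMod p, ∑ x' : ZMod p, (if x * x' * (x + x') = n then ch p x * ch p x' else 0) =
      ∑ s : ZMod p, (if x * (s - x) * s = n then ch p x * ch p (s - x) else 0) := by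
    intro x
    refine Fintype.sum_equiv (Equiv.addLeft x) _ _ fun x' => ?_
    simp only [Equiv.coe_addLeft, add_sub_cancel_left]
  rw [sum_congr rfl fun x _ => h3 x, sum_comm]
  have h4 : ∀ s : ZMod p, ∑ x : ZMod p, (if x * (s - x) * s = n then ch p x * ch p (s - x) else 0) =
      ch p n * (ch p s + ch p (s ^ 3 + 0 * s + -4 * n)) -
        (if s = 0 then ch p n * ch p (-4 * n) else 0) := by
    intro s
    by_cases hs : s = 0
    · subst hs
      rw [if_pos rfl, ch_zero]
      have e1 : ∀ x : ZMod p, (if x * (0 - x) * 0 = n then ch p x * ch p (0 - x) else 0) = 0 := by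
        intro x
        rw [if_neg]
        rw [mul_zero]
        exact hn.symm
      rw [sum_congr rfl fun x _ => e1 x, sum_const_zero]
      have e2 : (0 : ZMod p) ^ 3 + 0 * 0 + -4 * n = -4 * n := by ring
      rw [e2]
      ring
    · rw [if_neg hs, sub_zero]
      have e1 : ∀ x : ZMod p, (if x * (s - x) * s = n then ch p x * ch p (s - x) else 0) =
          (if x * (s - x) * s = n then ch p n * ch p s else 0) := by
        intro x
        by_cases h : x * (s - x) * s = n
        · rw [if_pos h, if_pos h, ← ch_mul]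
          have : ch p n * ch p s = ch p (x * (s - x)) * (ch p s * ch p s) := by
            rw [← h, ch_mul (x * (s - x)) s]; ring
          rw [this, ch_sq hs, mul_one]
        · rw [if_neg h, if_neg h]
      rw [sum_congr rfl fun x _ => e1 x, ← sum_filter, sum_const, nsmul_eq_mul]
      have e2 : ((univ.filter fun x : ZMod p => x * (s - x) * s = n).card : ℝ) =
          ch p (s ^ 2 - 4 * n / s) + 1 := by
        rw [← ch_sqrts hp]
        congr 1
        apply card_bij (fun x _ => 2 * x - s)
        · intro x hx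
          rw [mem_filter] at hx ⊢
          refine ⟨mem_univ _, ?_⟩
          rw [← hx.2]
          field_simp
          ring
        · intro x _ y _ h
          have : 2 * x = 2 * y := by linear_combination h
          exact mul_left_cancel₀ h2 this
        · intro y hy
          rw [mem_filter] at hy
          refine ⟨(y + s) / 2, ?_, ?_⟩
          · rw [mem_filter]
            refine ⟨mem_univ _, ?_⟩
            have h5 : y ^ 2 * s = s ^ 3 - 4 * n := by
              rw [hy.2]
              field_simp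
            have h6 : (y + s) / 2 * (s - (y + s) / 2) * s = (s ^ 3 - y ^ 2 * s) / 4 := by
              have h4' : (4 : ZMod p) = 2 * 2 := by norm_num
              rw [h4']
              field_simp
              ring
            rw [h6, h5]
            have h4' : (4 : ZMod p) ≠ 0 := by
              rw [show (4 : ZMod p) = 2 * 2 by norm_num]
              exact mul_ne_zero h2 h2
            field_simp
            ring
          · field_simp
            ring
      rw [e2]
      have e3 : s ^ 3 + 0 * s + -4 * n = s * (s ^ 2 - 4 * n / s) := by field_simp; ring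
      rw [e3, ch_mul]
      ring
  rw [sum_congr rfl fun s _ => h4 s, sum_sub_distrib, ← mul_sum, sum_add_distrib, ch_sum hp,
    zero_add, Finset.sum_ite_eq' univ (0 : ZMod p), if_pos (mem_univ _)]
  have h5 : ∑ s : ZMod p, ch p (s ^ 3 + 0 * s + -4 * n) = -tr p 0 (-4 * n) := by
    unfold tr
    rw [neg_neg]
  rw [h5]
  have h6 := tr_abs hp (0 : ZMod p) (-4 * n)
  have h7 := ch_abs n
  have h8 := ch_abs (-4 * n)
  refine (abs_sub _ _).trans (add_le_add ?_ ?_)
  · rw [abs_mul, abs_neg]
    calc |ch p n| * |tr p 0 (-4 * n)| ≤ 1 * (2 * √p) :=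
          mul_le_mul h7 h6 (abs_nonneg _) zero_le_one
      _ = 2 * √p := one_mul _
  · rw [abs_mul]
    exact mul_le_one₀ h7 (abs_nonneg _) h8

open Classical in
lemma few_cubes (h2 : (2 : ZMod p) ≠ 0) (n : ZMod p) :
    ((univ.filter fun x : ZMod p => x * x * (x + x) = n).card : ℝ) ≤ 3 := by
  have h : (univ.filter fun x : ZMod p => x * x * (x + x) = n) ⊆
      (Polynomial.nthRoots 3 (n / 2)).toFinset := by
    intro x hx
    rw [mem_filter] at hx
    rw [Multiset.mem_toFinset, Polynomial.mem_nthRoots (by norm_num)]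
    rw [← hx.2]
    field_simp
    ring
  have h1 := (card_le_card h).trans ((Multiset.toFinset_card_le _).trans
    (Polynomial.card_nthRoots 3 (n / 2)))
  exact_mod_cast h1

open Classical in
/-- the pairs with the same quotient -/
lemma diag_sum (hp : p ≠ 2) {n : ZMod p} (hn : n ≠ 0) :
    |∑ x : ZMod p, ∑ x' : ZMod p, (if x ^ 2 + n / x = x' ^ 2 + n / x' then ch p x * ch p x' else 0) -
      p| ≤ 2 * √p + 5 := by
  have h2 : (2 : ZMod p) ≠ 0 := two_ne hp
  have h1 : ∀ x x' : ZMod p, (if x ^ 2 + n / x = x' ^ 2 + n / x' then ch p x * ch p x' else 0) =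
      (if x = x' then ch p x * ch p x else 0) +
        (if x * x' * (x + x') = n then ch p x * ch p x' else 0) -
        (if x = x' then (if x * x * (x + x) = n then ch p x * ch p x else 0) else 0) := by
    intro x x'
    by_cases hx : x = 0
    · subst hx
      simp only [ch_zero, zero_mul, ite_self, add_zero, sub_zero]
    by_cases hx' : x' = 0
    · subst hx'
      rw [if_neg hx, if_neg hx, ch_zero, mul_zero, ite_self, ite_self]
      ring
    by_cases hxx : x = x'
    · subst hxx
      rw [if_pos rfl, if_pos rfl, if_pos rfl]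
      ring
    · rw [if_neg hxx, if_neg hxx, zero_add, sub_zero]
      refine if_congr ?_ rfl rfl
      have hd : x - x' ≠ 0 := sub_ne_zero.2 hxx
      constructor
      · intro h
        field_simp at h
        have h3 : (x - x') * (x * x' * (x + x') - n) = 0 := by linear_combination h
        rcases mul_eq_zero.1 h3 with h4 | h4
        · exact absurd h4 hd
        · exact sub_eq_zero.1 h4
      · intro h
        rw [← h]
        field_simp
        ring
  have h3 : ∑ x : ZMod p, ∑ x' : ZMod p,
      (if x ^ 2 + n / x = x' ^ 2 + n / x' then ch p x * ch p x' else 0) =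
      ∑ x : ZMod p, ch p x * ch p x +
        ∑ x : ZMod p, ∑ x' : ZMod p, (if x * x' * (x + x') = n then ch p x * ch p x' else 0) -
        ∑ x : ZMod p, (if x * x * (x + x) = n then ch p x * ch p x else 0) := by
    simp only [h1, sum_sub_distrib, sum_add_distrib, Finset.sum_ite_eq, mem_univ, if_true]
  have h4 : ∑ x : ZMod p, ch p x * ch p x = p - 1 := by
    have := corr' hp (0 : ZMod p) 0
    rw [if_pos rfl] at this
    simpa using this
  have h5 : |∑ x : ZMod p, (if x * x * (x + x) = n then ch p x * ch p x else 0)| ≤ 3 := by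
    refine (abs_sum_le_sum_abs _ _).trans ?_
    have h6 : ∀ x ∈ (univ : Finset (ZMod p)), |if x * x * (x + x) = n then ch p x * ch p x else 0| ≤
        if x * x * (x + x) = n then (1 : ℝ) else 0 := by
      intro x _
      split_ifs
      · rw [abs_mul]
        exact mul_le_one₀ (ch_abs x) (abs_nonneg _) (ch_abs x)
      · rw [abs_zero]
    refine (sum_le_sum h6).trans ?_
    rw [sum_boole]
    exact few_cubes h2 n
  rw [h3, h4]
  have h7 := curve_sum hp hn
  rw [abs_le] at h5 h7 ⊢
  constructor <;> linarith [h5.1, h5.2, h7.1, h7.2]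

/-- the second moment -/
lemma tr_sq' (hp : p ≠ 2) {n : ZMod p} (hn : n ≠ 0) :
    |∑ a : ZMod p, (tr p a n) ^ 2 - (p : ℝ) ^ 2| ≤ 8 * (p * √p) := by
  classical
  have hp0 : (0 : ℝ) < p := by exact_mod_cast (Fact.out : p.Prime).pos
  have hp1 : (1 : ℝ) ≤ p := by exact_mod_cast (Fact.out : p.Prime).one_le
  have hs1 : 1 ≤ √(p : ℝ) := by rw [Real.one_le_sqrt]; exact hp1
  have h1 : ∑ a : ZMod p, (tr p a n) ^ 2 = ∑ x : ZMod p, ∑ x' : ZMod p,
      ∑ a : ZMod p, ch p (x ^ 3 + a * x + n) * ch p (x' ^ 3 + a * x' + n) := by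
    have h4 : ∀ a : ZMod p, (tr p a n) ^ 2 = ∑ x : ZMod p, ∑ x' : ZMod p,
        ch p (x ^ 3 + a * x + n) * ch p (x' ^ 3 + a * x' + n) := by
      intro a
      unfold tr
      rw [neg_sq, sq, sum_mul_sum]
    rw [sum_congr rfl (fun a _ => h4 a), sum_comm]
    exact sum_congr rfl fun x _ => sum_comm
  have h2 : ∀ x x' : ZMod p, ∑ a : ZMod p, ch p (x ^ 3 + a * x + n) * ch p (x' ^ 3 + a * x' + n) =
      (if x = 0 ∧ x' = 0 then (p : ℝ) else 0) +
        p * (if x ^ 2 + n / x = x' ^ 2 + n / x' then ch p x * ch p x' else 0) -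
        ch p x * ch p x' := by
    intro x x'
    rw [inner_sum hp hn]
    by_cases h : x ^ 2 + n / x = x' ^ 2 + n / x'
    · rw [if_pos h, if_pos h]; ring
    · rw [if_neg h, if_neg h]; ring
  have h3 : ∑ x : ZMod p, ∑ x' : ZMod p, (if x = 0 ∧ x' = 0 then (p : ℝ) else 0) = p := by
    have e : ∀ x : ZMod p, ∑ x' : ZMod p, (if x = 0 ∧ x' = 0 then (p : ℝ) else 0) =
        if x = 0 then (p : ℝ) else 0 := by
      intro x
      by_cases hx : x = 0
      · simp [hx]
      · simp [hx]
    rw [sum_congr rfl fun x _ => e x, Finset.sum_ite_eq' univ (0 : ZMod p), if_pos (mem_univ _)]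
  have h5 : ∑ x : ZMod p, ∑ x' : ZMod p, ch p x * ch p x' = 0 := by
    rw [← sum_mul_sum, ch_sum hp, zero_mul]
  have h6 : ∑ a : ZMod p, (tr p a n) ^ 2 = p + p * ∑ x : ZMod p, ∑ x' : ZMod p,
      (if x ^ 2 + n / x = x' ^ 2 + n / x' then ch p x * ch p x' else 0) := by
    rw [h1]
    simp only [h2, sum_sub_distrib, sum_add_distrib, h3, h5, mul_sum]
    ring
  have h7 := diag_sum hp hn
  set D : ℝ := ∑ x : ZMod p, ∑ x' : ZMod p,
      (if x ^ 2 + n / x = x' ^ 2 + n / x' then ch p x * ch p x' else 0) with hD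
  rw [h6]
  have h8 : (p : ℝ) + p * D - (p : ℝ) ^ 2 = p * (1 + (D - p)) := by ring
  rw [h8, abs_mul, abs_of_pos hp0]
  have h9 : |1 + (D - (p : ℝ))| ≤ 8 * √p := by
    refine (abs_add_le _ _).trans ?_
    rw [abs_one]
    linarith
  calc (p : ℝ) * |1 + (D - p)| ≤ p * (8 * √p) := mul_le_mul_of_nonneg_left h9 hp0.le
    _ = _ := by ring

end Pool.Agent.T9h58.LN
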