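import Pool.Agent.T9h58.LN.Gen
import Pool.Agent.T9h58.LN.Tr

/-!
# The local factors of the product of Birch and Swinnerton-Dyer as local functions
-/

set_option autoImplicit false

namespace Pool.Agent.T9h58.LN

open Finset
open Pool.Agent.R459.Bsd Pool.Agent.N430.CLT
open Pool.Agent.W263.BSD (GoodPrime pointCount)

section one
variable {p : ℕ} [Fact p.Prime]

lemma log_sq_le {y : ℝ} (hy : |y| ≤ 1 / 2) :
    |Real.log (1 + y) ^ 2 - y ^ 2| ≤ 5 * |y| ^ 3 ∧ Real.log (1 + y) ^ 2 ≤ 4 * |y| ^ 2 := by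
  have h := log_le hy
  set L : ℝ := Real.log (1 + y) with hL
  have h0 : 0 ≤ |y| := abs_nonneg y
  have e2 : |y| ^ 3 = |y| ^ 2 * |y| := by ring
  have h1 : |L - y| ≤ 3 / 2 * |y| ^ 2 := by
    have e1 : L - y = (L - (y - y ^ 2 / 2)) - y ^ 2 / 2 := by ring
    rw [e1]
    refine (abs_sub _ _).trans ?_
    have h2 : |y ^ 2 / 2| = |y| ^ 2 / 2 := by rw [abs_div, abs_pow, abs_two]
    rw [h2]
    have h3 : 2 * |y| ^ 3 ≤ |y| ^ 2 := by
      rw [e2]
      nlinarith [sq_nonneg |y|]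
    linarith [h.1]
  constructor
  · have e1 : L ^ 2 - y ^ 2 = (L - y) * (L + y) := by ring
    rw [e1, abs_mul]
    have h4 : |L + y| ≤ 3 * |y| := (abs_add_le _ _).trans (by linarith [h.2])
    calc |L - y| * |L + y| ≤ (3 / 2 * |y| ^ 2) * (3 * |y|) :=
          mul_le_mul h1 h4 (abs_nonneg _) (by positivity)
      _ ≤ 5 * |y| ^ 3 := by
          rw [e2]
          nlinarith [mul_nonneg (sq_nonneg |y|) h0]
  · rw [← sq_abs L]
    calc |L| ^ 2 ≤ (2 * |y|) ^ 2 := pow_le_pow_left₀ (abs_nonneg _) h.2 2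
      _ = 4 * |y| ^ 2 := by ring

/-- the local factor with trace `τ` -/
lemma local_gen (hp29 : 29 ≤ p) (τ : ZMod p → ℝ) (Bd : Finset (ZMod p))
    (hτ : ∀ z, |τ z| ≤ 2 * √p) {R : ℝ} (hR0 : 0 ≤ R) (hR1 : R ≤ 1) (h1 : ∑ z, τ z = -(R * p))
    {C₀ : ℝ} (hC₀ : 0 ≤ C₀) (h2 : |∑ z, τ z ^ 2 - (p : ℝ) ^ 2| ≤ C₀ * (p * √p))
    (hB : (Bd.card : ℝ) ≤ 3) (F : ℕ → ℝ)
    (hF : ∀ t : ℕ, F t = if (t : ZMod p) ∈ Bd then 0 else Real.log (1 + (1 - τ (t : ZMod p)) / p)) :
    |avgP p F - (R + 1 / 2) / p| ≤ (300 + C₀) / (p * √p) ∧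
      |avgP p (fun m => F m ^ 2) - 1 / p| ≤ (300 + C₀) / (p * √p) ∧ ∀ t, |F t| ≤ 6 / √p := by
  have hpp : p.Prime := Fact.out
  have hp0 : (0 : ℝ) < p := by exact_mod_cast hpp.pos
  have hp1 : (1 : ℝ) ≤ p := by exact_mod_cast hpp.one_le
  have hs0 : 0 < √(p : ℝ) := Real.sqrt_pos.2 hp0
  have hs1 : 1 ≤ √(p : ℝ) := by rw [Real.one_le_sqrt]; exact hp1
  have hss : √(p : ℝ) * √(p : ℝ) = p := Real.mul_self_sqrt hp0.le
  have hs5 : (53 / 10 : ℝ) ≤ √(p : ℝ) := by
    apply Real.le_sqrt_of_sq_le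
    have : (29 : ℝ) ≤ p := by exact_mod_cast hp29
    norm_num
    linarith
  have hps : 1 / (p : ℝ) ≤ 1 / √p := one_div_le_one_div_of_le hs0 (by nlinarith)
  set y : ZMod p → ℝ := fun z => (1 - τ z) / p with hy
  have hy1 : ∀ z, |y z| ≤ 3 / √p := by
    intro z
    have h3 : |1 - τ z| ≤ 1 + 2 * √p := by
      refine (abs_sub _ _).trans ?_
      rw [abs_one]
      linarith [hτ z]
    rw [hy]
    simp only
    rw [abs_div, abs_of_pos hp0, div_le_div_iff₀ hp0 hs0]
    calc |1 - τ z| * √p ≤ (1 + 2 * √p) * √p := mul_le_mul_of_nonneg_right h3 hs0.le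
      _ ≤ 3 * (√(p : ℝ) * √(p : ℝ)) := by nlinarith
      _ = 3 * p := by rw [hss]
  have hy2 : ∀ z, |y z| ≤ 1 / 2 := by
    intro z
    have h3 : |1 - τ z| ≤ 1 + 2 * √p := by
      refine (abs_sub _ _).trans ?_
      rw [abs_one]
      linarith [hτ z]
    rw [hy]
    simp only
    rw [abs_div, abs_of_pos hp0, div_le_iff₀ hp0]
    nlinarith
  have hy3 : ∀ z, |y z| ^ 3 ≤ 27 / (p * √p) := by
    intro z
    calc |y z| ^ 3 ≤ (3 / √p) ^ 3 := pow_le_pow_left₀ (abs_nonneg _) (hy1 z) 3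
      _ = 27 / (p * √p) := by
        rw [div_pow]
        congr 1
        · norm_num
        · rw [pow_succ, sq, hss]
  have hy4 : ∀ z, |y z| ^ 2 ≤ 9 / p := by
    intro z
    calc |y z| ^ 2 ≤ (3 / √p) ^ 2 := pow_le_pow_left₀ (abs_nonneg _) (hy1 z) 2
      _ = 9 / p := by
        rw [div_pow, sq (√(p : ℝ)), hss]
        norm_num
  set H : ZMod p → ℝ := fun z => if z ∈ Bd then 0 else Real.log (1 + y z) with hH
  have hFH : ∀ t : ℕ, F t = H (t : ZMod p) := hF
  have havg : ∀ φ : ℝ → ℝ, avgP p (fun m => φ (F m)) = (∑ z : ZMod p, φ (H z)) / p := by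
    intro φ
    unfold avgP
    congr 1
    rw [← sum_zmod (p := p) (fun z => φ (H z))]
    refine sum_congr rfl fun t _ => ?_
    show φ (F t) = φ (H ((t : ℤ) : ZMod p))
    rw [hFH]
    push_cast
    rfl
  have hbsum : ∀ c : ℝ, ∑ z : ZMod p, (if z ∈ Bd then c else 0) = (Bd.card : ℝ) * c := by
    intro c
    rw [Finset.sum_ite_mem, univ_inter, sum_const, nsmul_eq_mul]
  have hpdiv : ∀ S c K : ℝ, |S - c| ≤ K / √p → |S / p - c / p| ≤ K / (p * √p) := by
    intro S c K h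
    rw [← sub_div, abs_div, abs_of_pos hp0, div_le_iff₀ hp0]
    refine h.trans (le_of_eq ?_)
    field_simp
  refine ⟨?_, ?_, ?_⟩
  · have h3 : avgP p F = (∑ z : ZMod p, H z) / p := havg (fun u => u)
    rw [h3]
    apply hpdiv
    -- the main term
    have e1 : ∑ z : ZMod p, (y z - y z ^ 2 / 2) =
        R + 1 / 2 - (1 + 2 * R) / (2 * p) - (∑ z, τ z ^ 2 - (p : ℝ) ^ 2) / (2 * p ^ 2) := by
      have e2 : ∀ z : ZMod p, y z - y z ^ 2 / 2 = 1 / p - 1 / (2 * p ^ 2) -
          τ z * (1 / p - 1 / p ^ 2) - (τ z) ^ 2 * (1 / (2 * p ^ 2)) := by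
        intro z
        rw [hy]
        field_simp
        ring
      rw [sum_congr rfl (fun z _ => e2 z), sum_sub_distrib, sum_sub_distrib, ← sum_mul, ← sum_mul,
        h1, sum_const, card_univ, ZMod.card, nsmul_eq_mul]
      field_simp
      ring
    have e3 : |∑ z : ZMod p, (y z - y z ^ 2 / 2) - (R + 1 / 2)| ≤ (3 + C₀) / √p := by
      rw [e1]
      have g1 : |(1 + 2 * R) / (2 * (p : ℝ))| ≤ 3 / √p := by
        rw [abs_of_nonneg (by positivity)]
        calc (1 + 2 * R) / (2 * (p : ℝ)) ≤ 3 / p := by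
              rw [div_le_div_iff₀ (by positivity) hp0]
              nlinarith
          _ = 3 * (1 / p) := by ring
          _ ≤ 3 * (1 / √p) := by linarith
          _ = 3 / √p := by ring
      have g2 : |(∑ z, τ z ^ 2 - (p : ℝ) ^ 2) / (2 * p ^ 2)| ≤ C₀ / √p := by
        rw [abs_div, abs_of_pos (by positivity : (0 : ℝ) < 2 * p ^ 2),
          div_le_div_iff₀ (by positivity) hs0]
        calc |∑ z, τ z ^ 2 - (p : ℝ) ^ 2| * √p ≤ C₀ * (p * √p) * √p :=
              mul_le_mul_of_nonneg_right h2 hs0.le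
          _ = C₀ * p ^ 2 := by
              have : √(p : ℝ) * √p = p := hss
              calc C₀ * (p * √p) * √p = C₀ * p * (√p * √p) := by ring
                _ = C₀ * p ^ 2 := by rw [hss]; ring
          _ ≤ C₀ * (2 * p ^ 2) := by
              apply mul_le_mul_of_nonneg_left _ hC₀
              nlinarith
      have e4 : R + 1 / 2 - (1 + 2 * R) / (2 * (p : ℝ)) -
          (∑ z, τ z ^ 2 - (p : ℝ) ^ 2) / (2 * p ^ 2) - (R + 1 / 2) =
          -((1 + 2 * R) / (2 * p)) - (∑ z, τ z ^ 2 - (p : ℝ) ^ 2) / (2 * p ^ 2) := by ring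
      rw [e4]
      refine (abs_sub _ _).trans ?_
      rw [abs_neg, add_div 3 C₀]
      exact add_le_add g1 g2
    -- the error term
    have e5 : |∑ z : ZMod p, H z - ∑ z : ZMod p, (y z - y z ^ 2 / 2)| ≤ 72 / √p := by
      rw [← sum_sub_distrib]
      refine (abs_sum_le_sum_abs _ _).trans ?_
      have g1 : ∀ z ∈ (univ : Finset (ZMod p)), |H z - (y z - y z ^ 2 / 2)| ≤
          54 / (p * √p) + if z ∈ Bd then 6 / √p else 0 := by
        intro z _
        have h5 := log_le (hy2 z)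
        have h6 : |Real.log (1 + y z) - (y z - y z ^ 2 / 2)| ≤ 54 / (p * √p) := by
          have e6 : (54 : ℝ) / (p * √p) = 2 * (27 / (p * √p)) := by ring
          rw [e6]
          linarith [h5.1, hy3 z]
        rw [hH]
        simp only
        by_cases hb : z ∈ Bd
        · rw [if_pos hb, if_pos hb]
          have e2 : (0 : ℝ) - (y z - y z ^ 2 / 2) =
              (Real.log (1 + y z) - (y z - y z ^ 2 / 2)) - Real.log (1 + y z) := by ring
          rw [e2]
          refine (abs_sub _ _).trans (add_le_add h6 (h5.2.trans ?_))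
          have e3 : (6 : ℝ) / √p = 2 * (3 / √p) := by ring
          rw [e3]
          linarith [hy1 z]
        · rw [if_neg hb, if_neg hb, add_zero]
          exact h6
      refine (sum_le_sum g1).trans ?_
      rw [sum_add_distrib, hbsum, sum_const, card_univ, ZMod.card, nsmul_eq_mul]
      have g2 : (p : ℝ) * (54 / (p * √p)) = 54 / √p := by field_simp
      have g3 : (Bd.card : ℝ) * (6 / √p) ≤ 18 / √p := by
        calc _ ≤ 3 * (6 / √(p : ℝ)) := mul_le_mul_of_nonneg_right hB (by positivity)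
          _ = _ := by ring
      rw [g2]
      have e6 : (72 : ℝ) / √p = 54 / √p + 18 / √p := by ring
      rw [e6]
      linarith
    have e7 : ∑ z : ZMod p, H z - (R + 1 / 2) = (∑ z : ZMod p, H z -
        ∑ z : ZMod p, (y z - y z ^ 2 / 2)) + (∑ z : ZMod p, (y z - y z ^ 2 / 2) - (R + 1 / 2)) := by
      ring
    rw [e7]
    refine (abs_add_le _ _).trans ((add_le_add e5 e3).trans ?_)
    rw [← add_div]
    exact div_le_div_of_nonneg_right (by linarith) hs0.le
  · have h3 := havg (fun u => u ^ 2)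
    rw [h3]
    apply hpdiv
    have e1 : ∑ z : ZMod p, y z ^ 2 =
        1 + (1 + 2 * R) / p + (∑ z, τ z ^ 2 - (p : ℝ) ^ 2) / p ^ 2 := by
      have e2 : ∀ z : ZMod p, y z ^ 2 = 1 / p ^ 2 - τ z * (2 / p ^ 2) + (τ z) ^ 2 * (1 / p ^ 2) := by
        intro z
        rw [hy]
        field_simp
        ring
      rw [sum_congr rfl (fun z _ => e2 z), sum_add_distrib, sum_sub_distrib, ← sum_mul, ← sum_mul,
        h1, sum_const, card_univ, ZMod.card, nsmul_eq_mul]
      field_simp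
      ring
    have e3 : |∑ z : ZMod p, y z ^ 2 - 1| ≤ (3 + C₀) / √p := by
      rw [e1]
      have g1 : |(1 + 2 * R) / (p : ℝ)| ≤ 3 / √p := by
        rw [abs_of_nonneg (by positivity)]
        calc (1 + 2 * R) / (p : ℝ) ≤ 3 / p := by
              rw [div_le_div_iff₀ (by positivity) hp0]
              nlinarith
          _ = 3 * (1 / p) := by ring
          _ ≤ 3 * (1 / √p) := by linarith
          _ = 3 / √p := by ring
      have g2 : |(∑ z, τ z ^ 2 - (p : ℝ) ^ 2) / p ^ 2| ≤ C₀ / √p := by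
        rw [abs_div, abs_of_pos (by positivity : (0 : ℝ) < p ^ 2),
          div_le_div_iff₀ (by positivity) hs0]
        calc |∑ z, τ z ^ 2 - (p : ℝ) ^ 2| * √p ≤ C₀ * (p * √p) * √p :=
              mul_le_mul_of_nonneg_right h2 hs0.le
          _ = C₀ * p ^ 2 := by
              calc C₀ * (p * √p) * √p = C₀ * p * (√p * √p) := by ring
                _ = C₀ * p ^ 2 := by rw [hss]; ring
      have e4 : 1 + (1 + 2 * R) / (p : ℝ) + (∑ z, τ z ^ 2 - (p : ℝ) ^ 2) / p ^ 2 - 1 =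
          (1 + 2 * R) / p + (∑ z, τ z ^ 2 - (p : ℝ) ^ 2) / p ^ 2 := by ring
      rw [e4, add_div 3 C₀]
      exact (abs_add_le _ _).trans (add_le_add g1 g2)
    have e5 : |∑ z : ZMod p, H z ^ 2 - ∑ z : ZMod p, y z ^ 2| ≤ 243 / √p := by
      rw [← sum_sub_distrib]
      refine (abs_sum_le_sum_abs _ _).trans ?_
      have g1 : ∀ z ∈ (univ : Finset (ZMod p)), |H z ^ 2 - y z ^ 2| ≤
          135 / (p * √p) + if z ∈ Bd then 36 / √p else 0 := by
        intro z _
        have h5 := log_sq_le (hy2 z)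
        have h6 : |Real.log (1 + y z) ^ 2 - y z ^ 2| ≤ 135 / (p * √p) := by
          have e6 : (135 : ℝ) / (p * √p) = 5 * (27 / (p * √p)) := by ring
          rw [e6]
          linarith [h5.1, hy3 z]
        rw [hH]
        simp only
        by_cases hb : z ∈ Bd
        · rw [if_pos hb, if_pos hb]
          have e2 : (0 : ℝ) ^ 2 - y z ^ 2 =
              (Real.log (1 + y z) ^ 2 - y z ^ 2) - Real.log (1 + y z) ^ 2 := by ring
          rw [e2]
          refine (abs_sub _ _).trans (add_le_add h6 ?_)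
          rw [abs_of_nonneg (sq_nonneg _)]
          calc Real.log (1 + y z) ^ 2 ≤ 4 * |y z| ^ 2 := h5.2
            _ ≤ 4 * (9 / p) := by linarith [hy4 z]
            _ = 36 * (1 / p) := by ring
            _ ≤ 36 * (1 / √p) := by linarith
            _ = 36 / √p := by ring
        · rw [if_neg hb, if_neg hb, add_zero]
          exact h6
      refine (sum_le_sum g1).trans ?_
      rw [sum_add_distrib, hbsum, sum_const, card_univ, ZMod.card, nsmul_eq_mul]
      have g2 : (p : ℝ) * (135 / (p * √p)) = 135 / √p := by field_simp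
      have g3 : (Bd.card : ℝ) * (36 / √p) ≤ 108 / √p := by
        calc _ ≤ 3 * (36 / √(p : ℝ)) := mul_le_mul_of_nonneg_right hB (by positivity)
          _ = _ := by ring
      rw [g2]
      have e6 : (243 : ℝ) / √p = 135 / √p + 108 / √p := by ring
      rw [e6]
      linarith
    have e7 : ∑ z : ZMod p, H z ^ 2 - 1 = (∑ z : ZMod p, H z ^ 2 -
        ∑ z : ZMod p, y z ^ 2) + (∑ z : ZMod p, y z ^ 2 - 1) := by
      ring
    rw [e7]
    refine (abs_add_le _ _).trans ((add_le_add e5 e3).trans ?_)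
    rw [← add_div]
    exact div_le_div_of_nonneg_right (by linarith) hs0.le
  · intro t
    rw [hFH, hH]
    simp only
    split_ifs
    · rw [abs_zero]; positivity
    · have e3 : (6 : ℝ) / √p = 2 * (3 / √p) := by ring
      rw [e3]
      have := (log_le (hy2 (t : ZMod p))).2
      linarith [hy1 (t : ZMod p)]

end one

/-! ### local functions from the large primes -/

theorem exists_loc (G : ℕ → ℕ → ℝ) (κ : ℝ) (per : ∀ p, p.Prime → ∀ m, G p (m + p) = G p m)
    (p₁ : ℕ) (C₁ : ℝ) (h : ∀ p, p.Prime → p₁ ≤ p → |avgP p (G p) - κ / p| ≤ C₁ / (p * √p) ∧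
      |avgP p (fun m => G p m ^ 2) - 1 / p| ≤ C₁ / (p * √p) ∧ ∀ t, |G p t| ≤ 6 / √p) :
    ∃ l : Loc, l.G = G ∧ l.κ = κ := by
  set D : ℝ := ∑ p ∈ range p₁, ∑ m ∈ range p, |G p m| with hD
  have hD0 : 0 ≤ D := sum_nonneg fun p _ => sum_nonneg fun m _ => abs_nonneg _
  have hDb : ∀ p, p.Prime → p < p₁ → ∀ m, |G p m| ≤ D := by
    intro p hpp hp m
    have e : G p m = G p (m % p) := by
      conv_lhs => rw [← Nat.mod_add_div m p]
      rw [per_mul (per p hpp)]
    rw [e]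
    calc |G p (m % p)| ≤ ∑ m ∈ range p, |G p m| :=
          single_le_sum (f := fun m => |G p m|) (fun m _ => abs_nonneg _)
            (mem_range.2 (Nat.mod_lt _ hpp.pos))
      _ ≤ D := single_le_sum (f := fun p => ∑ m ∈ range p, |G p m|)
          (fun p _ => sum_nonneg fun m _ => abs_nonneg _) (mem_range.2 hp)
  set E : ℝ := (D + D ^ 2 + |κ| + 1) * ((p₁ : ℝ) * p₁) with hE
  have hE0 : 0 ≤ E := by positivity
  set C : ℝ := |C₁| + 6 + E with hC
  have hC0 : 0 ≤ C := by positivity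
  have small : ∀ p, p.Prime → p < p₁ → ∀ u : ℝ, |u| ≤ D + D ^ 2 + |κ| + 1 →
      |u| ≤ C / (p * √p) ∧ |u| ≤ C / √p := by
    intro p hpp hp u hu
    have hp0 : (0 : ℝ) < p := by exact_mod_cast hpp.pos
    have hp1 : (1 : ℝ) ≤ p := by exact_mod_cast hpp.one_le
    have hs0 : 0 < √(p : ℝ) := Real.sqrt_pos.2 hp0
    have hs1 : 1 ≤ √(p : ℝ) := by rw [Real.one_le_sqrt]; exact hp1
    have hss : √(p : ℝ) * √(p : ℝ) = p := Real.mul_self_sqrt hp0.le
    have hsp : √(p : ℝ) ≤ p := by nlinarith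
    have hpp1 : (p : ℝ) ≤ p₁ := by exact_mod_cast hp.le
    have h1 : (p : ℝ) * √p ≤ (p₁ : ℝ) * p₁ := mul_le_mul hpp1 (hsp.trans hpp1) hs0.le (by linarith)
    have h2 : √(p : ℝ) ≤ p * √p := by nlinarith
    have h3 : |u| * ((p : ℝ) * √p) ≤ C := by
      calc |u| * ((p : ℝ) * √p) ≤ (D + D ^ 2 + |κ| + 1) * ((p₁ : ℝ) * p₁) :=
            mul_le_mul hu h1 (by positivity) (by positivity)
        _ ≤ C := by rw [hC]; linarith [abs_nonneg C₁]
    constructor
    · rw [le_div_iff₀ (by positivity)]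
      exact h3
    · rw [le_div_iff₀ hs0]
      exact (mul_le_mul_of_nonneg_left h2 (abs_nonneg u)).trans h3
  have hq1 : ∀ p : ℕ, p.Prime → (1 : ℝ) / p ≤ 1 := fun p hpp => by
    have : (1 : ℝ) ≤ p := by exact_mod_cast hpp.one_le
    rw [div_le_one (by linarith)]
    exact this
  have hCC : C₁ ≤ C := by
    rw [hC]
    linarith [le_abs_self C₁]
  refine ⟨⟨G, κ, C, ?_, per, fun p hpp m => ?_, fun p hpp => ?_, fun p hpp => ?_⟩, rfl, rfl⟩
  · rw [hC]; linarith [abs_nonneg C₁]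
  · by_cases hp : p < p₁
    · refine (small p hpp hp _ ?_).2
      have := hDb p hpp hp m
      linarith [sq_nonneg D, abs_nonneg κ]
    · refine ((h p hpp (not_lt.1 hp)).2.2 m).trans ?_
      apply div_le_div_of_nonneg_right _ (Real.sqrt_nonneg _)
      rw [hC]; linarith [abs_nonneg C₁]
  · by_cases hp : p < p₁
    · refine (small p hpp hp _ ?_).1
      have h1 := abs_avgP_le hpp.pos (hDb p hpp hp)
      have hp1 : (1 : ℝ) ≤ p := by exact_mod_cast hpp.one_le
      have h2 : |κ / (p : ℝ)| ≤ |κ| := by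
        rw [abs_div, abs_of_pos (by linarith : (0 : ℝ) < p)]
        exact div_le_self (abs_nonneg _) hp1
      have h3 := abs_sub (avgP p (G p)) (κ / (p : ℝ))
      linarith [sq_nonneg D]
    · refine (h p hpp (not_lt.1 hp)).1.trans ?_
      apply div_le_div_of_nonneg_right hCC (by positivity)
  · by_cases hp : p < p₁
    · refine (small p hpp hp _ ?_).1
      have h1 : |avgP p (fun m => G p m ^ 2)| ≤ D ^ 2 := abs_avgP_le hpp.pos fun m => by
        rw [abs_pow]
        exact pow_le_pow_left₀ (abs_nonneg _) (hDb p hpp hp m) 2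
      have h2 := hq1 p hpp
      have h4 : |(1 : ℝ) / p| ≤ 1 := by
        rw [abs_of_nonneg (by positivity)]; exact h2
      have h3 := abs_sub (avgP p (fun m => G p m ^ 2)) (1 / (p : ℝ))
      linarith [abs_nonneg κ]
    · refine (h p hpp (not_lt.1 hp)).2.1.trans ?_
      apply div_le_div_of_nonneg_right hCC (by positivity)

/-! ### the two families -/

/-- the family `y² = x³ + a x + m` -/
theorem loc_const {a : ℤ} (ha : a ≠ 0) :
    ∃ l : Loc, l.G = (fun p m : ℕ => GG a p (m : ℤ)) ∧ l.κ = 1 / 2 := by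
  classical
  refine exists_loc (fun p m : ℕ => GG a p (m : ℤ)) _
    (fun p hpp m => GG_per a p _ _ (by push_cast; exact ⟨1, by ring⟩))
    (max 29 (a.natAbs + 1)) (300 + 3) fun p hpp hp => ?_
  have : Fact p.Prime := ⟨hpp⟩
  have hp29 : 29 ≤ p := (le_max_left _ _).trans hp
  have hpa : a.natAbs < p := by have := (le_max_right _ _).trans hp; omega
  have hp2 : p ≠ 2 := by omega
  have hp1 : (1 : ℝ) ≤ p := by exact_mod_cast hpp.one_le
  have hs1 : 1 ≤ √(p : ℝ) := by rw [Real.one_le_sqrt]; exact hp1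
  have h3 : (3 : ZMod p) ≠ 0 := by
    intro h0
    have : ((3 : ℕ) : ZMod p) = 0 := by exact_mod_cast h0
    rw [ZMod.natCast_eq_zero_iff] at this
    have := Nat.le_of_dvd (by norm_num) this
    omega
  have ha' : (a : ZMod p) ≠ 0 := by
    rw [Ne, ZMod.intCast_zmod_eq_zero_iff_dvd]
    intro h
    have h4 := Int.natAbs_dvd_natAbs.2 h
    rw [Int.natAbs_natCast] at h4
    have := Nat.le_of_dvd (Int.natAbs_pos.2 ha) h4
    omega
  obtain ⟨Bd, hBd⟩ : ∃ Bd : Finset (ZMod p), Bd =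
      univ.filter (fun z => -4 * (a : ZMod p) ^ 3 - 27 * z ^ 2 = 0) := ⟨_, rfl⟩
  have hmem : ∀ z, z ∈ Bd ↔ -4 * (a : ZMod p) ^ 3 - 27 * z ^ 2 = 0 := by
    intro z
    rw [hBd, mem_filter]
    exact ⟨fun h => h.2, fun h => ⟨mem_univ _, h⟩⟩
  have hB : (Bd.card : ℝ) ≤ 3 := by
    have h4 := bad_card hpp (by omega) (a : ZMod p)
    have h5 : Bd.card ≤ 2 := by
      refine le_trans (card_le_card ?_) h4
      intro z hz
      rw [mem_filter]
      exact ⟨mem_univ _, fun h => h ((hmem z).1 hz)⟩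
    have h6 : (Bd.card : ℝ) ≤ 2 := by exact_mod_cast h5
    linarith
  have hF : ∀ t : ℕ, GG a p (t : ℤ) = if (t : ZMod p) ∈ Bd then 0 else
      Real.log (1 + (1 - tr p (a : ZMod p) (t : ZMod p)) / p) := by
    intro t
    have hz : (((t : ℕ) : ℤ) : ZMod p) = ((t : ℕ) : ZMod p) := by push_cast; rfl
    have h5 := good_iff hpp (by omega) a (t : ℤ)
    rw [hz] at h5
    by_cases h : GoodPrime a (t : ℤ) p
    · rw [if_neg (fun h6 => (h5.1 h) ((hmem _).1 h6)), GG_eq hp29 a (t : ℤ) h, hz]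
    · rw [if_pos ((hmem _).2 (not_not.1 fun h6 => h (h5.2 h6)))]
      unfold GG
      rw [if_neg h]
  have key := local_gen hp29 (fun z => tr p (a : ZMod p) z) Bd (fun z => tr_abs hp2 _ _)
    (R := 0) le_rfl zero_le_one (by rw [tr_mean hp2]; simp) (C₀ := 3) (by norm_num)
    ((tr_sq hp2 h3 ha').trans (by
      have : (p : ℝ) ≤ p * √p := by nlinarith
      linarith)) hB (fun m : ℕ => GG a p (m : ℤ)) hF
  have e : ((0 : ℝ) + 1 / 2) = 1 / 2 := by norm_num
  rw [e] at key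
  exact key

lemma bad_card' {p : ℕ} [Fact p.Prime] (hp2 : p ≠ 2) (n : ZMod p) :
    ((univ.filter fun z : ZMod p => -4 * z ^ 3 - 27 * n ^ 2 = 0).card : ℝ) ≤ 3 := by
  classical
  have h2 : (2 : ZMod p) ≠ 0 := two_ne hp2
  have h4 : (4 : ZMod p) ≠ 0 := by
    rw [show (4 : ZMod p) = 2 * 2 by norm_num]
    exact mul_ne_zero h2 h2
  have h : (univ.filter fun z : ZMod p => -4 * z ^ 3 - 27 * n ^ 2 = 0) ⊆
      (Polynomial.nthRoots 3 (-27 * n ^ 2 / 4)).toFinset := by
    intro z hz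
    rw [mem_filter] at hz
    rw [Multiset.mem_toFinset, Polynomial.mem_nthRoots (by norm_num)]
    field_simp
    linear_combination -hz.2
  have h1 := (card_le_card h).trans ((Multiset.toFinset_card_le _).trans
    (Polynomial.card_nthRoots 3 (-27 * n ^ 2 / 4)))
  exact_mod_cast h1

/-- the family `y² = x³ + m x + c²` -/
theorem loc_lin {c : ℤ} (hc : c ≠ 0) :
    ∃ l : Loc, l.G = (fun p m : ℕ => GG (m : ℤ) p (c ^ 2)) ∧ l.κ = 3 / 2 := by
  classical
  have hper : ∀ (p m : ℕ), GG ((m + p : ℕ) : ℤ) p (c ^ 2) = GG (m : ℤ) p (c ^ 2) := by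
    intro p m
    have e1 : GoodPrime ((m + p : ℕ) : ℤ) (c ^ 2) p ↔ GoodPrime (m : ℤ) (c ^ 2) p := by
      unfold GoodPrime
      have h1 : (p : ℤ) ∣ 2 * (-4 * ((m + p : ℕ) : ℤ) ^ 3 - 27 * (c ^ 2) ^ 2) -
          2 * (-4 * (m : ℤ) ^ 3 - 27 * (c ^ 2) ^ 2) := by
        refine ⟨-8 * (3 * (m : ℤ) ^ 2 + 3 * m * p + (p : ℤ) ^ 2), ?_⟩
        push_cast
        ring
      rw [dvd_iff_dvd_of_dvd_sub h1]
    have e2 : pointCount ((m + p : ℕ) : ℤ) (c ^ 2) p = pointCount (m : ℤ) (c ^ 2) p := by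
      unfold pointCount
      have : ((((m + p : ℕ) : ℤ)) : ZMod p) = ((m : ℤ) : ZMod p) := by
        push_cast
        simp
      rw [this]
    unfold GG
    rw [e2]
    exact if_congr e1 rfl rfl
  refine exists_loc (fun p m : ℕ => GG (m : ℤ) p (c ^ 2)) _ (fun p hpp m => hper p m)
    (max 29 (c.natAbs + 1)) (300 + 8) fun p hpp hp => ?_
  have : Fact p.Prime := ⟨hpp⟩
  have hp29 : 29 ≤ p := (le_max_left _ _).trans hp
  have hpc : c.natAbs < p := by have := (le_max_right _ _).trans hp; omega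
  have hp2 : p ≠ 2 := by omega
  have hc' : (c : ZMod p) ≠ 0 := by
    rw [Ne, ZMod.intCast_zmod_eq_zero_iff_dvd]
    intro h
    have h4 := Int.natAbs_dvd_natAbs.2 h
    rw [Int.natAbs_natCast] at h4
    have := Nat.le_of_dvd (Int.natAbs_pos.2 hc) h4
    omega
  have hn : ((c ^ 2 : ℤ) : ZMod p) ≠ 0 := by
    push_cast
    exact pow_ne_zero 2 hc'
  have hch : ch p ((c ^ 2 : ℤ) : ZMod p) = 1 := by
    push_cast
    rw [sq, ch_mul, ch_sq hc']
  obtain ⟨n, hnd⟩ : ∃ n : ZMod p, n = ((c ^ 2 : ℤ) : ZMod p) := ⟨_, rfl⟩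
  rw [← hnd] at hn hch
  obtain ⟨Bd, hBd⟩ : ∃ Bd : Finset (ZMod p), Bd =
      univ.filter (fun z : ZMod p => -4 * z ^ 3 - 27 * n ^ 2 = 0) := ⟨_, rfl⟩
  have hmem : ∀ z, z ∈ Bd ↔ -4 * z ^ 3 - 27 * n ^ 2 = 0 := by
    intro z
    rw [hBd, mem_filter]
    exact ⟨fun h => h.2, fun h => ⟨mem_univ _, h⟩⟩
  have hB : (Bd.card : ℝ) ≤ 3 := by
    rw [hBd]
    exact bad_card' hp2 n
  have hF : ∀ t : ℕ, GG (t : ℤ) p (c ^ 2) = if (t : ZMod p) ∈ Bd then 0 else
      Real.log (1 + (1 - tr p (t : ZMod p) n) / p) := by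
    intro t
    have hz : (((t : ℕ) : ℤ) : ZMod p) = ((t : ℕ) : ZMod p) := by push_cast; rfl
    have h5 := good_iff hpp (by omega) (t : ℤ) (c ^ 2)
    rw [hz, ← hnd] at h5
    by_cases h : GoodPrime (t : ℤ) (c ^ 2) p
    · rw [if_neg (fun h6 => (h5.1 h) ((hmem _).1 h6)), GG_eq hp29 (t : ℤ) (c ^ 2) h, hz, ← hnd]
    · rw [if_pos ((hmem _).2 (not_not.1 fun h6 => h (h5.2 h6)))]
      unfold GG
      rw [if_neg h]
  have key := local_gen hp29 (fun z => tr p z n) Bd (fun z => tr_abs hp2 _ _)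
    (R := 1) zero_le_one le_rfl (by rw [tr_mean' hp2, hch]) (C₀ := 8) (by norm_num)
    (tr_sq' hp2 hn) hB (fun m : ℕ => GG (m : ℤ) p (c ^ 2)) hF
  have e : ((1 : ℝ) + 1 / 2) = 3 / 2 := by norm_num
  rw [e] at key
  exact key

end Pool.Agent.T9h58.LN
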