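import Pool.Agent.T9h58.LN.TL

/-!
# Sums of Mestre and Nagao: the normal law
-/

set_option autoImplicit false

namespace Pool.Agent.T9h58.LN

open Finset Filter Topology Pool.Agent.N430.CLT

/-- `∑ log p / p` -/
noncomputable def Amer (n : ℕ) : ℝ := ∑ p ∈ PP n, Real.log p / p

/-- `∑ (log p)² / p` -/
noncomputable def Bmer (n : ℕ) : ℝ := ∑ p ∈ PP n, Real.log p ^ 2 / p

/-- the difference of the logarithms -/
noncomputable def dl (k : ℕ) : ℝ := Real.log ((k + 1 : ℕ) : ℝ) - Real.log k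

lemma PP_eq (n : ℕ) : PP n = (Finset.Icc 1 n).filter Nat.Prime := by
  ext p
  rw [mem_PP, mem_filter, mem_Icc]
  exact ⟨fun h => ⟨⟨h.2.one_le, h.1⟩, h.2⟩, fun h => ⟨h.1.2, h.2⟩⟩

lemma PP_zero : PP 0 = ∅ := by
  rw [eq_empty_iff_forall_notMem]
  intro p hp
  rw [mem_PP] at hp
  have := hp.2.pos
  omega

lemma sum_PP_succ (n : ℕ) (f : ℕ → ℝ) : ∑ p ∈ PP (n + 1), f p =
    ∑ p ∈ PP n, f p + if (n + 1).Prime then f (n + 1) else 0 := by
  have e : ∀ k : ℕ, PP k = (range (k + 1)).filter Nat.Prime := fun _ => rfl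
  rw [e, e, sum_filter, sum_filter, sum_range_succ]

lemma dl_zero : dl 0 = 0 := by
  unfold dl
  simp

lemma dl_nonneg (k : ℕ) : 0 ≤ dl k := by
  rcases Nat.eq_zero_or_pos k with h | h
  · subst h
    rw [dl_zero]
  · unfold dl
    have : Real.log (k : ℝ) ≤ Real.log ((k + 1 : ℕ) : ℝ) := by
      apply Real.log_le_log (by exact_mod_cast h)
      push_cast
      linarith
    linarith

lemma dl_le (k : ℕ) : dl k ≤ 1 := by
  rcases Nat.eq_zero_or_pos k with h | h
  · subst h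
    rw [dl_zero]
    exact zero_le_one
  · have hk : (1 : ℝ) ≤ k := by exact_mod_cast h
    unfold dl
    rw [← Real.log_div (by positivity) (by positivity)]
    have h1 := Real.log_le_sub_one_of_pos (x := ((k + 1 : ℕ) : ℝ) / k) (by positivity)
    refine h1.trans ?_
    rw [sub_le_iff_le_add, div_le_iff₀ (by positivity)]
    push_cast
    linarith

lemma sum_dl (n : ℕ) : ∑ k ∈ range n, dl k = Real.log n := by
  induction n with
  | zero => simp
  | succ n ih =>
    rw [sum_range_succ, ih]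
    unfold dl
    ring

lemma sum_dl_sq (n : ℕ) : 2 * ∑ k ∈ range n, Real.log k * dl k + ∑ k ∈ range n, dl k ^ 2 =
    Real.log n ^ 2 := by
  induction n with
  | zero => simp
  | succ n ih =>
    rw [sum_range_succ, sum_range_succ]
    have h : 2 * (∑ k ∈ range n, Real.log k * dl k + Real.log n * dl n) +
        (∑ k ∈ range n, dl k ^ 2 + dl n ^ 2) =
        (2 * ∑ k ∈ range n, Real.log k * dl k + ∑ k ∈ range n, dl k ^ 2) +
        (2 * (Real.log n * dl n) + dl n ^ 2) := by ring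
    rw [h, ih]
    unfold dl
    ring

lemma abel (n : ℕ) : Bmer n = Amer n * Real.log n - ∑ k ∈ range n, Amer k * dl k := by
  induction n with
  | zero =>
    unfold Bmer Amer
    rw [PP_zero]
    simp
  | succ n ih =>
    rw [sum_range_succ]
    have hA : Amer (n + 1) = Amer n +
        if (n + 1).Prime then Real.log ((n + 1 : ℕ) : ℝ) / ((n + 1 : ℕ) : ℝ) else 0 :=
      sum_PP_succ n (fun p => Real.log p / p)
    have hB : Bmer (n + 1) = Bmer n +
        if (n + 1).Prime then Real.log ((n + 1 : ℕ) : ℝ) ^ 2 / ((n + 1 : ℕ) : ℝ) else 0 :=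
      sum_PP_succ n (fun p => Real.log p ^ 2 / p)
    rw [hA, hB, ih]
    unfold dl
    split_ifs
    · ring
    · ring

/-- Mertens: `∑ log p / p = log n + O(1)` and `∑ (log p)² / p = (log n)² / 2 + O(log n)` -/
theorem mert2 : ∃ C : ℝ, 1 ≤ C ∧ ∀ n : ℕ, 1 ≤ n → |Amer n - Real.log n| ≤ C ∧
    |Bmer n - Real.log n ^ 2 / 2| ≤ C * Real.log n := by
  obtain ⟨C, hC⟩ := Pool.Agent.Erdos456.Mert.mertens_log
  have h0 : ∀ n : ℕ, |Amer n - Real.log n| ≤ |C| := by
    intro n
    rcases Nat.eq_zero_or_pos n with h | h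
    · subst h
      unfold Amer
      rw [PP_zero]
      simp
    · unfold Amer
      rw [PP_eq]
      exact (hC n h).trans (le_abs_self C)
  refine ⟨2 * |C| + 1, by linarith [abs_nonneg C], fun n hn => ⟨?_, ?_⟩⟩
  · linarith [h0 n, abs_nonneg C]
  · have hlog : 0 ≤ Real.log n := Real.log_nonneg (by exact_mod_cast hn)
    have e : Bmer n - Real.log n ^ 2 / 2 = (Amer n - Real.log n) * Real.log n -
        ∑ k ∈ range n, (Amer k - Real.log k) * dl k + (∑ k ∈ range n, dl k ^ 2) / 2 := by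
      have h1 : ∑ k ∈ range n, (Amer k - Real.log k) * dl k =
          ∑ k ∈ range n, Amer k * dl k - ∑ k ∈ range n, Real.log k * dl k := by
        rw [← sum_sub_distrib]
        exact sum_congr rfl fun k _ => by ring
      rw [h1, abel n]
      linarith [sum_dl_sq n]
    have h1 : |(Amer n - Real.log n) * Real.log n| ≤ |C| * Real.log n := by
      rw [abs_mul, abs_of_nonneg hlog]
      exact mul_le_mul_of_nonneg_right (h0 n) hlog
    have h2 : |∑ k ∈ range n, (Amer k - Real.log k) * dl k| ≤ |C| * Real.log n := by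
      rw [← sum_dl n, mul_sum]
      refine (abs_sum_le_sum_abs _ _).trans (sum_le_sum fun k _ => ?_)
      rw [abs_mul, abs_of_nonneg (dl_nonneg k)]
      exact mul_le_mul_of_nonneg_right (h0 k) (dl_nonneg k)
    have h3 : |(∑ k ∈ range n, dl k ^ 2) / 2| ≤ Real.log n / 2 := by
      rw [abs_of_nonneg (by positivity)]
      apply div_le_div_of_nonneg_right _ (by norm_num)
      rw [← sum_dl n]
      refine sum_le_sum fun k _ => ?_
      rw [sq]
      exact mul_le_of_le_one_left (dl_nonneg k) (dl_le k)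
    rw [e]
    refine (abs_add_le _ _).trans ?_
    have h4 := abs_sub ((Amer n - Real.log n) * Real.log n)
      (∑ k ∈ range n, (Amer k - Real.log k) * dl k)
    linarith

lemma log_le_sqrt (p : ℕ) (hp : p.Prime) : Real.log p ≤ 2 * √p := by
  have hp0 : (0 : ℝ) < p := by exact_mod_cast hp.pos
  have := Real.log_le_rpow_div hp0.le (ε := 1 / 2) (by norm_num)
  rw [Real.sqrt_eq_rpow]
  linarith

/-- comparison of the shares for close bounds -/
lemma share_shift (l : TLoc) {t ε : ℝ} (hε : 0 < ε) : ∃ η : ℝ, 0 < η ∧ ∃ K : ℕ,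
    ∀ (x N : ℕ) (g : ℕ → ℝ) (σ u : ℝ), x ^ K ≤ N → 0 < σ → σ ^ 2 = ∑ p ∈ PP x, g p ^ 2 * p →
      (∀ p ≤ x, p.Prime → |g p| * √p ≤ η * σ) → |u - t * σ| ≤ ε / 2 * σ →
      |(#{m ∈ Icc 1 N | ∑ p ∈ PP x, g p * l.T p m + l.R * ∑ p ∈ PP x, g p ≤ u} : ℝ) / N -
        Phi t| ≤ ε := by
  obtain ⟨η₁, hη₁, K₁, h₁⟩ := tl_clt l (t + ε / 2) (half_pos hε)
  obtain ⟨η₂, hη₂, K₂, h₂⟩ := tl_clt l (t - ε / 2) (half_pos hε)
  refine ⟨min η₁ η₂, lt_min hη₁ hη₂, max K₁ K₂, fun x N g σ u hN hσ hσ2 hg hu => ?_⟩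
  have hx0 : 0 < x := by
    rcases Nat.eq_zero_or_pos x with h | h
    · subst h
      rw [PP_zero, sum_empty] at hσ2
      have : 0 < σ ^ 2 := by positivity
      linarith
    · exact h
  have hN1 : x ^ K₁ ≤ N := (Nat.pow_le_pow_right hx0 (le_max_left _ _)).trans hN
  have hN2 : x ^ K₂ ≤ N := (Nat.pow_le_pow_right hx0 (le_max_right _ _)).trans hN
  have g1 := h₁ x N g σ hN1 hσ hσ2 fun p hp hpp =>
    (hg p hp hpp).trans (mul_le_mul_of_nonneg_right (min_le_left _ _) hσ.le)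
  have g2 := h₂ x N g σ hN2 hσ hσ2 fun p hp hpp =>
    (hg p hp hpp).trans (mul_le_mul_of_nonneg_right (min_le_right _ _) hσ.le)
  have hu1 := (abs_le.1 hu).1
  have hu2 := (abs_le.1 hu).2
  have m1 : (#{m ∈ Icc 1 N | ∑ p ∈ PP x, g p * l.T p m + l.R * ∑ p ∈ PP x, g p ≤ u} : ℝ) / N ≤
      (#{m ∈ Icc 1 N | ∑ p ∈ PP x, g p * l.T p m + l.R * ∑ p ∈ PP x, g p ≤ (t + ε / 2) * σ} : ℝ)
        / N := by
    apply div_le_div_of_nonneg_right _ (Nat.cast_nonneg N)
    have : (t + ε / 2) * σ = t * σ + ε / 2 * σ := by ring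
    exact_mod_cast card_le_card (monotone_filter_right _ fun m _ hm => by
      rw [this]; linarith)
  have m2 : (#{m ∈ Icc 1 N | ∑ p ∈ PP x, g p * l.T p m + l.R * ∑ p ∈ PP x, g p ≤ (t - ε / 2) * σ} : ℝ)
        / N ≤
      (#{m ∈ Icc 1 N | ∑ p ∈ PP x, g p * l.T p m + l.R * ∑ p ∈ PP x, g p ≤ u} : ℝ) / N := by
    apply div_le_div_of_nonneg_right _ (Nat.cast_nonneg N)
    have : (t - ε / 2) * σ = t * σ - ε / 2 * σ := by ring
    exact_mod_cast card_le_card (monotone_filter_right _ fun m _ hm => by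
      rw [this] at hm; linarith)
  have l1 := Phi_lip (s := t) (t := t + ε / 2) (by linarith)
  have l2 := Phi_lip (s := t - ε / 2) (t := t) (by linarith)
  have g1' := (abs_le.1 g1).2
  have g2' := (abs_le.1 g2).1
  rw [abs_le]
  constructor <;> linarith

/-- **the normal law for the sums of Mestre and Nagao** -/
theorem mestre_nagao (l : TLoc) (t : ℝ) {ε : ℝ} (hε : 0 < ε) : ∃ K x₀ : ℕ, ∀ x N : ℕ, x₀ ≤ x →
    x ^ K ≤ N →
      |(#{m ∈ Icc 1 N | 1 / Real.log x * ∑ p ∈ PP x, Real.log p / p * l.T p m ≤ -l.R + t / √2} : ℝ)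
        / N - Phi t| ≤ ε := by
  obtain ⟨η, hη, K, h⟩ := share_shift l (t := t) hε
  obtain ⟨C, hC1, hC⟩ := mert2
  have hs2 : 0 < √(2 : ℝ) := Real.sqrt_pos.2 (by norm_num)
  have hs22 : √(2 : ℝ) * √2 = 2 := Real.mul_self_sqrt (by norm_num)
  -- the size of `log x` we need
  set M : ℝ := 4 * C + 4 * (2 / η + 2 / ε * (|t| * (√2 * C) + |l.R| * C)) + 4 with hM
  have hM4 : 4 ≤ M := by
    have : 0 ≤ 4 * (2 / η + 2 / ε * (|t| * (√2 * C) + |l.R| * C)) := by positivity
    rw [hM]; linarith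
  obtain ⟨x₀, hx₀⟩ := exists_nat_ge (Real.exp M)
  refine ⟨K, max x₀ 1, fun x N hx hN => ?_⟩
  have hx1 : 1 ≤ x := (le_max_right _ _).trans hx
  have hxR : (0 : ℝ) < x := by exact_mod_cast hx1
  have hL : M ≤ Real.log x := by
    rw [Real.le_log_iff_exp_le hxR]
    exact hx₀.trans (by exact_mod_cast (le_max_left _ _).trans hx)
  set L : ℝ := Real.log x with hLd
  have hL0 : 0 < L := by linarith
  obtain ⟨hA, hB⟩ := hC x hx1
  rw [← hLd] at hA hB
  have hLC : 4 * C ≤ L := by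
    refine le_trans ?_ hL
    have : 0 ≤ 4 * (2 / η + 2 / ε * (|t| * (√2 * C) + |l.R| * C)) := by positivity
    rw [hM]; linarith
  have hB1 : L ^ 2 / 4 ≤ Bmer x := by
    have h1 := (abs_le.1 hB).1
    have h2 : 4 * C * L ≤ L * L := mul_le_mul_of_nonneg_right hLC hL0.le
    have e : L ^ 2 = L * L := sq L
    rw [e] at h1 ⊢
    linarith
  have hB0 : 0 < Bmer x := by
    have : 0 < L ^ 2 := by positivity
    linarith
  set σ : ℝ := √(Bmer x) with hσ
  have hσ0 : 0 < σ := Real.sqrt_pos.2 hB0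
  have hσ2 : σ ^ 2 = Bmer x := Real.sq_sqrt hB0.le
  have hσL : L / 2 ≤ σ := by
    rw [hσ]
    apply Real.le_sqrt_of_sq_le
    calc (L / 2) ^ 2 = L ^ 2 / 4 := by ring
      _ ≤ Bmer x := hB1
  have hσM : 2 / η + 2 / ε * (|t| * (√2 * C) + |l.R| * C) ≤ σ := by
    refine le_trans ?_ hσL
    rw [hM] at hL
    linarith
  have hz : 0 ≤ 2 / ε * (|t| * (√2 * C) + |l.R| * C) := by positivity
  have hz' : 0 ≤ 2 / η := by positivity
  have hησ : 2 ≤ η * σ := by
    have : 2 / η ≤ σ := by linarith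
    rw [div_le_iff₀ hη] at this
    linarith
  have hεσ : |t| * (√2 * C) + |l.R| * C ≤ ε / 2 * σ := by
    have h1 : 2 / ε * (|t| * (√2 * C) + |l.R| * C) ≤ σ := by linarith
    have h2 : ε / 2 * (2 / ε * (|t| * (√2 * C) + |l.R| * C)) ≤ ε / 2 * σ :=
      mul_le_mul_of_nonneg_left h1 (by positivity)
    have h3 : ε / 2 * (2 / ε * (|t| * (√2 * C) + |l.R| * C)) = |t| * (√2 * C) + |l.R| * C := by
      field_simp
    rwa [h3] at h2
  -- `|L / √2 - σ| ≤ √2 C`
  have hcmp : |L / √2 - σ| ≤ √2 * C := by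
    have h1 : (L / √2 - σ) * (L / √2 + σ) = L ^ 2 / 2 - Bmer x := by
      rw [← hσ2]
      have : (L / √2) ^ 2 = L ^ 2 / 2 := by rw [div_pow, sq (√(2 : ℝ)), hs22]
      calc (L / √2 - σ) * (L / √2 + σ) = (L / √2) ^ 2 - σ ^ 2 := by ring
        _ = _ := by rw [this]
    have h2 : |L / √2 - σ| * (L / √2) ≤ C * L := by
      calc |L / √2 - σ| * (L / √2) ≤ |L / √2 - σ| * (L / √2 + σ) :=
            mul_le_mul_of_nonneg_left (by linarith) (abs_nonneg _)
        _ = |L ^ 2 / 2 - Bmer x| := by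
            rw [← h1, abs_mul, abs_of_pos (by positivity : 0 < L / √2 + σ)]
        _ ≤ C * L := by rw [abs_sub_comm]; exact hB
    have h3 : C * L = √2 * C * (L / √2) := by field_simp
    rw [h3] at h2
    exact le_of_mul_le_mul_right h2 (by positivity)
  -- the event
  set u : ℝ := t / √2 * L + l.R * (Amer x - L) with hu
  have huσ : |u - t * σ| ≤ ε / 2 * σ := by
    have e : u - t * σ = t * (L / √2 - σ) + l.R * (Amer x - L) := by rw [hu]; ring
    rw [e]
    refine (abs_add_le _ _).trans (le_trans ?_ hεσ)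
    rw [abs_mul, abs_mul]
    exact add_le_add (mul_le_mul_of_nonneg_left hcmp (abs_nonneg _))
      (mul_le_mul_of_nonneg_left hA (abs_nonneg _))
  have key := h x N (fun p => Real.log p / p) σ u hN hσ0 (by
      rw [hσ2]
      unfold Bmer
      refine sum_congr rfl fun p hp => ?_
      have hp0 : (0 : ℝ) < p := by exact_mod_cast (mem_PP.1 hp).2.pos
      field_simp) (fun p _ hpp => by
      have hp0 : (0 : ℝ) < p := by exact_mod_cast hpp.pos
      have hlog : 0 ≤ Real.log p := Real.log_nonneg (by exact_mod_cast hpp.one_le)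
      have hsp : 0 < √(p : ℝ) := Real.sqrt_pos.2 hp0
      have hss : √(p : ℝ) * √p = p := Real.mul_self_sqrt hp0.le
      rw [abs_of_nonneg (by positivity)]
      refine le_trans ?_ hησ
      rw [div_mul_eq_mul_div, div_le_iff₀ hp0]
      calc Real.log p * √p ≤ 2 * √p * √p := mul_le_mul_of_nonneg_right (log_le_sqrt p hpp) hsp.le
        _ = 2 * p := by rw [mul_assoc, hss]) huσ
  have e : ∀ m, (1 / L * ∑ p ∈ PP x, Real.log p / p * l.T p m ≤ -l.R + t / √2) ↔
      (∑ p ∈ PP x, Real.log p / p * l.T p m + l.R * ∑ p ∈ PP x, Real.log p / p ≤ u) := by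
    intro m
    have e1 : ∑ p ∈ PP x, Real.log p / p = Amer x := rfl
    rw [e1, hu, one_div_mul_eq_div, div_le_iff₀ hL0]
    constructor
    · intro h; linarith
    · intro h; linarith
  simp only [e]
  exact key

end Pool.Agent.T9h58.LN
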