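import Pool.Agent.T9h58.LN.Arr
import Pool.Agent.T9h58.LN.Gen

/-!
# The central limit theorem for weighted sums of traces
-/

set_option autoImplicit false

namespace Pool.Agent.T9h58.LN

open Finset Filter Topology Pool.Agent.N430.CLT

/-- local functions of size `√p`, with the means `-R` and the mean squares `p`, up to smaller terms -/
structure TLoc where
  T : ℕ → ℕ → ℝ
  R : ℝ
  C : ℝ
  hC : 1 ≤ C
  per : ∀ p, p.Prime → ∀ m, T p (m + p) = T p m
  bd : ∀ p, p.Prime → ∀ m, |T p m| ≤ 2 * √p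
  mean : ∀ p, p.Prime → |avgP p (T p) + R| ≤ C / √p
  sq : ∀ p, p.Prime → |avgP p (fun m => T p m ^ 2) - p| ≤ C * √p

/-- the centred and normalised local functions with the weights `g` -/
noncomputable def TLoc.dat (l : TLoc) (g : ℕ → ℝ) (x : ℕ) (B : ℝ) (hB : 0 < B)
    (hg : ∀ p ≤ x, p.Prime → |g p| * √p ≤ B) : Dat where
  X p m := if p ≤ x then g p * (l.T p m - avgP p (l.T p)) / (4 * B) else 0
  per p hp m := by rw [l.per p hp m]
  bd p hp m := by
    split_ifs with h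
    · have h1 := abs_avgP_le hp.pos (l.bd p hp)
      have h2 : |l.T p m - avgP p (l.T p)| ≤ 4 * √p := by
        refine (abs_sub _ _).trans ?_
        have := l.bd p hp m
        linarith
      rw [abs_div, abs_mul, abs_of_pos (by linarith : 0 < 4 * B), div_le_one (by linarith)]
      calc |g p| * |l.T p m - avgP p (l.T p)| ≤ |g p| * (4 * √p) :=
            mul_le_mul_of_nonneg_left h2 (abs_nonneg _)
        _ = 4 * (|g p| * √p) := by ring
        _ ≤ 4 * B := by linarith [hg p h hp]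
    · rw [abs_zero]; exact zero_le_one
  mean p hp := by
    by_cases h : p ≤ x
    · simp only [if_pos h]
      have e : ∀ m, g p * (l.T p m - avgP p (l.T p)) / (4 * B) =
          (g p / (4 * B)) * (l.T p m - avgP p (l.T p)) := fun m => by ring
      simp only [e]
      rw [avgP_mul_left, avgP_sub_const hp.pos, sub_self, mul_zero]
    · simp only [if_neg h]
      exact avgP_const hp.pos 0

lemma sum_inv_sq {P x : ℕ} (hP : 1 ≤ P) (T : Finset ℕ) (hT : ∀ p ∈ T, P < p ∧ p ≤ x) :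
    ∑ p ∈ T, 1 / (p : ℝ) ^ 2 ≤ 1 / (P : ℝ) := by
  rcases Nat.lt_or_ge x P with h | h
  · have : T = ∅ := by
      rw [eq_empty_iff_forall_notMem]
      intro p hp
      have := hT p hp
      omega
    rw [this, sum_empty]
    positivity
  · have h1 := sum_Ioc_inv_sq_le_sub (α := ℝ) (k := P) (n := x) (by omega) h
    have h2 : ∑ p ∈ T, 1 / (p : ℝ) ^ 2 ≤ ∑ i ∈ Ioc P x, ((i : ℝ) ^ 2)⁻¹ := by
      refine (sum_le_sum_of_subset_of_nonneg (fun p hp => ?_) fun _ _ _ => by positivity).trans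
        (le_of_eq (sum_congr rfl fun p _ => one_div _))
      rw [mem_Ioc]
      exact hT p hp
    have h3 : (0 : ℝ) ≤ (x : ℝ)⁻¹ := by positivity
    rw [one_div]
    linarith

/-- **the central limit theorem** for weighted sums of traces -/
theorem tl_clt (l : TLoc) (t : ℝ) {ε : ℝ} (hε : 0 < ε) : ∃ η : ℝ, 0 < η ∧ ∃ K : ℕ,
    ∀ (x N : ℕ) (g : ℕ → ℝ) (σ : ℝ), x ^ K ≤ N → 0 < σ → σ ^ 2 = ∑ p ∈ PP x, g p ^ 2 * p →
      (∀ p ≤ x, p.Prime → |g p| * √p ≤ η * σ) →
      |(#{m ∈ Icc 1 N | ∑ p ∈ PP x, g p * l.T p m + l.R * ∑ p ∈ PP x, g p ≤ t * σ} : ℝ) / N -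
        Phi t| ≤ ε := by
  have hC0 : 0 < l.C := lt_of_lt_of_le one_pos l.hC
  set ε' : ℝ := ε / 2 with hε'
  have hε'0 : 0 < ε' := by positivity
  obtain ⟨Ka, ha⟩ := clt_arr (t + ε') hε'0
  obtain ⟨Kb, hb⟩ := clt_arr (t - ε') hε'0
  set δ : ℝ := min (1 / 2) (ε' / (4 * (|t| + 1))) with hδ
  have hδ0 : 0 < δ := lt_min (by norm_num) (by positivity)
  have hδ1 : δ ≤ 1 / 2 := min_le_left _ _
  have hδ2 : (|t| + 1) * δ ≤ ε' / 4 := by
    have : δ ≤ ε' / (4 * (|t| + 1)) := min_le_right _ _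
    rw [le_div_iff₀ (by positivity)] at this
    linarith
  -- the constants
  set C2 : ℝ := l.C + (|l.R| + l.C) ^ 2 with hC2
  have hC20 : 0 < C2 := by positivity
  obtain ⟨P, hP⟩ := exists_nat_ge ((2 * C2 / δ) ^ 2 + 1)
  have hP1' : (1 : ℝ) ≤ P := by
    have : 0 ≤ (2 * C2 / δ) ^ 2 := sq_nonneg _
    linarith
  have hP1 : 1 ≤ P := by exact_mod_cast hP1'
  have hP0 : (0 : ℝ) < P := by linarith
  have hsP : 0 < √(P : ℝ) := Real.sqrt_pos.2 hP0
  have hPC : C2 / √P ≤ δ / 2 := by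
    rw [div_le_div_iff₀ hsP (by norm_num)]
    have h1 : 2 * C2 / δ ≤ √P := by
      apply Real.le_sqrt_of_sq_le
      linarith
    rw [div_le_iff₀ hδ0] at h1
    linarith
  set η : ℝ := min (min 1 (δ / (2 * C2 * P))) (1 / (6 * (1 + (max Ka Kb : ℕ)))) with hη
  have hη0 : 0 < η := by
    refine lt_min (lt_min one_pos (by positivity)) (by positivity)
  have hη1 : η ≤ 1 := (min_le_left _ _).trans (min_le_left _ _)
  have hη2 : C2 * (P * η) ≤ δ / 2 := by
    have : η ≤ δ / (2 * C2 * P) := (min_le_left _ _).trans (min_le_right _ _)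
    rw [le_div_iff₀ (by positivity)] at this
    linarith
  have hη3 : 6 * (1 + ((max Ka Kb : ℕ) : ℝ)) * η ≤ 1 := by
    have : η ≤ 1 / (6 * (1 + (max Ka Kb : ℕ))) := min_le_right _ _
    rw [le_div_iff₀ (by positivity)] at this
    linarith
  refine ⟨η, hη0, max Ka Kb, fun x N g σ hN hσ hσ2 hg => ?_⟩
  -- the data
  have hB : 0 < η * σ := by positivity
  set D : Dat := l.dat g x (η * σ) hB hg with hD
  have hX : ∀ p ∈ PP x, ∀ m, D.X p m = g p * (l.T p m - avgP p (l.T p)) / (4 * (η * σ)) := by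
    intro p hp m
    show (if p ≤ x then g p * (l.T p m - avgP p (l.T p)) / (4 * (η * σ)) else 0) = _
    rw [if_pos (mem_PP.1 hp).1]
  -- facts on the primes
  have hmu : ∀ p, p.Prime → |avgP p (l.T p)| ≤ |l.R| + l.C := by
    intro p hp
    have hp1 : 1 ≤ √(p : ℝ) := by
      rw [Real.one_le_sqrt]
      exact_mod_cast hp.one_le
    have h1 := l.mean p hp
    have h2 : l.C / √p ≤ l.C := div_le_self hC0.le hp1
    calc |avgP p (l.T p)| = |(avgP p (l.T p) + l.R) - l.R| := by congr 1; ring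
      _ ≤ |l.R| + l.C := (abs_sub _ _).trans (by linarith)
  have hvar : ∀ p ∈ PP x, |16 * (η * σ) ^ 2 * D.v p - g p ^ 2 * p| ≤ C2 * (g p ^ 2 * √p) := by
    intro p hp
    have hpp := (mem_PP.1 hp).2
    have hp1 : 1 ≤ √(p : ℝ) := by
      rw [Real.one_le_sqrt]
      exact_mod_cast hpp.one_le
    set μ : ℝ := avgP p (l.T p) with hμ
    have e1 : 16 * (η * σ) ^ 2 * D.v p = g p ^ 2 * (avgP p (fun m => l.T p m ^ 2) - μ ^ 2) := by
      unfold Dat.v
      have e2 : ∀ m, D.X p m ^ 2 =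
          (g p ^ 2 / (16 * (η * σ) ^ 2)) * (l.T p m ^ 2 - 2 * μ * l.T p m + μ ^ 2) := by
        intro m
        rw [hX p hp, ← hμ]
        field_simp
        ring
      simp only [e2]
      rw [avgP_mul_left, avgP_add, avgP_sub', avgP_const hpp.pos, avgP_mul_left, ← hμ]
      field_simp
      ring
    have h1 : μ ^ 2 ≤ (|l.R| + l.C) ^ 2 := by
      rw [← sq_abs μ]
      exact pow_le_pow_left₀ (abs_nonneg _) (hmu p hpp) 2
    rw [e1]
    have e3 : g p ^ 2 * (avgP p (fun m => l.T p m ^ 2) - μ ^ 2) - g p ^ 2 * p =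
        g p ^ 2 * ((avgP p (fun m => l.T p m ^ 2) - p) - μ ^ 2) := by ring
    rw [e3, abs_mul, abs_of_nonneg (sq_nonneg (g p))]
    have h2 : |(avgP p (fun m => l.T p m ^ 2) - (p : ℝ)) - μ ^ 2| ≤ C2 * √p := by
      refine (abs_sub _ _).trans ?_
      rw [abs_of_nonneg (sq_nonneg μ), hC2, add_mul]
      refine add_le_add (l.sq p hpp) (h1.trans ?_)
      exact le_mul_of_one_le_right (sq_nonneg _) hp1
    calc g p ^ 2 * |(avgP p (fun m => l.T p m ^ 2) - (p : ℝ)) - μ ^ 2| ≤ g p ^ 2 * (C2 * √p) :=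
          mul_le_mul_of_nonneg_left h2 (sq_nonneg _)
      _ = _ := by ring
  -- small and large primes
  set T1 : Finset ℕ := (PP x).filter (fun p => p ≤ P) with hT1
  set T2 : Finset ℕ := (PP x).filter (fun p => ¬ p ≤ P) with hT2
  have hT1c : (T1.card : ℝ) ≤ P := by
    have : T1 ⊆ Icc 1 P := by
      intro p hp
      rw [hT1, mem_filter, mem_PP] at hp
      exact mem_Icc.2 ⟨hp.1.2.one_le, hp.2⟩
    have h2 := card_le_card this
    rw [Nat.card_Icc, Nat.add_sub_cancel] at h2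
    exact_mod_cast h2
  have hgs : ∀ p ∈ PP x, g p ^ 2 * p ≤ (η * σ) ^ 2 := by
    intro p hp
    have h1 := hg p (mem_PP.1 hp).1 (mem_PP.1 hp).2
    have h2 := pow_le_pow_left₀ (by positivity) h1 2
    rwa [mul_pow, sq_abs, Real.sq_sqrt (Nat.cast_nonneg p)] at h2
  set W : ℝ := 16 * (η * σ) ^ 2 * D.V x with hW
  have hWσ : |W - σ ^ 2| ≤ δ * σ ^ 2 := by
    have h1 : |W - σ ^ 2| ≤ ∑ p ∈ PP x, C2 * (g p ^ 2 * √p) := by
      rw [hW, hσ2]
      unfold Dat.V
      rw [mul_sum, ← sum_sub_distrib]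
      exact (abs_sum_le_sum_abs _ _).trans (sum_le_sum hvar)
    have h2 : ∑ p ∈ PP x, C2 * (g p ^ 2 * √p) =
        C2 * ∑ p ∈ T1, g p ^ 2 * √p + C2 * ∑ p ∈ T2, g p ^ 2 * √p := by
      rw [← mul_sum, ← mul_add, hT1, hT2, sum_filter_add_sum_filter_not]
    have h3 : ∑ p ∈ T1, g p ^ 2 * √p ≤ P * η * σ ^ 2 := by
      calc ∑ p ∈ T1, g p ^ 2 * √p ≤ ∑ _p ∈ T1, (η * σ) ^ 2 := by
            refine sum_le_sum fun p hp => ?_
            have hpx : p ∈ PP x := (mem_filter.1 hp).1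
            refine le_trans ?_ (hgs p hpx)
            apply mul_le_mul_of_nonneg_left _ (sq_nonneg _)
            have hp1 : (1 : ℝ) ≤ p := by exact_mod_cast (mem_PP.1 hpx).2.one_le
            rw [Real.sqrt_le_left (by linarith)]
            nlinarith
        _ = T1.card * (η * σ) ^ 2 := by rw [sum_const, nsmul_eq_mul]
        _ ≤ P * (η * σ) ^ 2 := mul_le_mul_of_nonneg_right hT1c (sq_nonneg _)
        _ = P * (η * η) * σ ^ 2 := by ring
        _ ≤ P * (η * 1) * σ ^ 2 := by gcongr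
        _ = P * η * σ ^ 2 := by ring
    have h4 : ∑ p ∈ T2, g p ^ 2 * √p ≤ σ ^ 2 / √P := by
      rw [le_div_iff₀ hsP, sum_mul, hσ2]
      refine (sum_le_sum fun p hp => ?_).trans (sum_le_sum_of_subset_of_nonneg
        (filter_subset _ _) fun _ _ _ => by positivity)
      rw [hT2, mem_filter, not_le] at hp
      have h5 : √(P : ℝ) ≤ √p := Real.sqrt_le_sqrt (by exact_mod_cast hp.2.le)
      calc g p ^ 2 * √p * √P ≤ g p ^ 2 * √p * √p := mul_le_mul_of_nonneg_left h5 (by positivity)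
        _ = g p ^ 2 * p := by rw [mul_assoc, Real.mul_self_sqrt (Nat.cast_nonneg p)]
    have h5 : C2 * ∑ p ∈ T1, g p ^ 2 * √p ≤ δ / 2 * σ ^ 2 := by
      calc _ ≤ C2 * (P * η * σ ^ 2) := mul_le_mul_of_nonneg_left h3 hC20.le
        _ = (C2 * (P * η)) * σ ^ 2 := by ring
        _ ≤ _ := mul_le_mul_of_nonneg_right hη2 (sq_nonneg _)
    have h6 : C2 * ∑ p ∈ T2, g p ^ 2 * √p ≤ δ / 2 * σ ^ 2 := by
      calc _ ≤ C2 * (σ ^ 2 / √P) := mul_le_mul_of_nonneg_left h4 hC20.le
        _ = (C2 / √P) * σ ^ 2 := by ring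
        _ ≤ _ := mul_le_mul_of_nonneg_right hPC (sq_nonneg _)
    linarith
  -- the mean
  set E : ℝ := ∑ p ∈ PP x, g p * (avgP p (l.T p) + l.R) with hE
  have hEσ : |E| ≤ δ * σ := by
    have hCC2 : l.C ≤ C2 := by
      rw [hC2]
      linarith [sq_nonneg (|l.R| + l.C)]
    have h1 : |E| ≤ ∑ p ∈ PP x, C2 * (|g p| / √p) := by
      rw [hE]
      refine (abs_sum_le_sum_abs _ _).trans (sum_le_sum fun p hp => ?_)
      rw [abs_mul]
      calc |g p| * |avgP p (l.T p) + l.R| ≤ |g p| * (l.C / √p) :=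
            mul_le_mul_of_nonneg_left (l.mean p (mem_PP.1 hp).2) (abs_nonneg _)
        _ = l.C * (|g p| / √p) := by ring
        _ ≤ C2 * (|g p| / √p) := mul_le_mul_of_nonneg_right hCC2 (by positivity)
    have h2 : ∑ p ∈ PP x, C2 * (|g p| / √p) =
        C2 * ∑ p ∈ T1, |g p| / √p + C2 * ∑ p ∈ T2, |g p| / √p := by
      rw [← mul_sum, ← mul_add, hT1, hT2, sum_filter_add_sum_filter_not]
    have h3 : ∑ p ∈ T1, |g p| / √p ≤ P * η * σ := by
      calc ∑ p ∈ T1, |g p| / √p ≤ ∑ _p ∈ T1, η * σ := by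
            refine sum_le_sum fun p hp => ?_
            have hpx : p ∈ PP x := (mem_filter.1 hp).1
            have hp1 : 1 ≤ √(p : ℝ) := by
              rw [Real.one_le_sqrt]
              exact_mod_cast (mem_PP.1 hpx).2.one_le
            have h4 := hg p (mem_PP.1 hpx).1 (mem_PP.1 hpx).2
            calc |g p| / √p ≤ |g p| := div_le_self (abs_nonneg _) hp1
              _ ≤ |g p| * √p := le_mul_of_one_le_right (abs_nonneg _) hp1
              _ ≤ η * σ := h4
        _ = T1.card * (η * σ) := by rw [sum_const, nsmul_eq_mul]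
        _ ≤ P * (η * σ) := mul_le_mul_of_nonneg_right hT1c hB.le
        _ = P * η * σ := by ring
    have h4 : ∑ p ∈ T2, |g p| / √p ≤ σ / √P := by
      have h5 : ∀ p ∈ T2, |g p| / √p ≤ (g p ^ 2 * p) / (2 * (σ * √P)) +
          (σ * √P) / 2 * (1 / (p : ℝ) ^ 2) := by
        intro p hp
        rw [hT2, mem_filter, mem_PP] at hp
        have hp0 : (0 : ℝ) < p := by exact_mod_cast hp.1.2.pos
        have hsp : 0 < √(p : ℝ) := Real.sqrt_pos.2 hp0
        have hss : √(p : ℝ) * √p = p := Real.mul_self_sqrt hp0.le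
        have e1 : |g p| / √p = (|g p| * √p) * (1 / (p : ℝ)) := by
          rw [mul_one_div, div_eq_div_iff hsp.ne' hp0.ne', mul_assoc, hss]
        have e2 : g p ^ 2 * p = (|g p| * √p) ^ 2 := by
          rw [mul_pow, sq_abs, Real.sq_sqrt hp0.le]
        rw [e1, e2]
        set a : ℝ := |g p| * √p with ha'
        set c : ℝ := σ * √P with hc'
        have hc0 : 0 < c := by positivity
        have h7 : 0 ≤ (a - c / p) ^ 2 / (2 * c) := by positivity
        have e3 : (a - c / p) ^ 2 / (2 * c) = a ^ 2 / (2 * c) + c / 2 * (1 / (p : ℝ) ^ 2) -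
            a * (1 / (p : ℝ)) := by
          field_simp
          ring
        rw [e3] at h7
        linarith
      refine (sum_le_sum h5).trans ?_
      rw [sum_add_distrib, ← sum_div, ← mul_sum]
      have h6 : ∑ p ∈ T2, g p ^ 2 * (p : ℝ) ≤ σ ^ 2 := by
        rw [hσ2]
        exact sum_le_sum_of_subset_of_nonneg (filter_subset _ _) fun _ _ _ => by positivity
      have h7 : ∑ p ∈ T2, 1 / (p : ℝ) ^ 2 ≤ 1 / (P : ℝ) := sum_inv_sq hP1 T2 fun p hp => by
        rw [hT2, mem_filter, mem_PP, not_le] at hp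
        exact ⟨hp.2, hp.1.1⟩
      have h8 : (∑ p ∈ T2, g p ^ 2 * (p : ℝ)) / (2 * (σ * √P)) ≤ σ / √P / 2 := by
        rw [div_le_iff₀ (by positivity)]
        refine h6.trans (le_of_eq ?_)
        field_simp
      have h9 : σ * √P / 2 * ∑ p ∈ T2, 1 / (p : ℝ) ^ 2 ≤ σ / √P / 2 := by
        calc _ ≤ σ * √P / 2 * (1 / (P : ℝ)) := mul_le_mul_of_nonneg_left h7 (by positivity)
          _ = σ / √P / 2 := by
              have hss : √(P : ℝ) * √P = P := Real.mul_self_sqrt hP0.le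
              rw [mul_one_div, div_div, div_div, div_eq_div_iff (by positivity) (by positivity)]
              linear_combination 2 * σ * hss
      linarith
    have h5 : C2 * ∑ p ∈ T1, |g p| / √p ≤ δ / 2 * σ := by
      calc _ ≤ C2 * (P * η * σ) := mul_le_mul_of_nonneg_left h3 hC20.le
        _ = (C2 * (P * η)) * σ := by ring
        _ ≤ _ := mul_le_mul_of_nonneg_right hη2 hσ.le
    have h6 : C2 * ∑ p ∈ T2, |g p| / √p ≤ δ / 2 * σ := by
      calc _ ≤ C2 * (σ / √P) := mul_le_mul_of_nonneg_left h4 hC20.le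
        _ = (C2 / √P) * σ := by ring
        _ ≤ _ := mul_le_mul_of_nonneg_right hPC hσ.le
    linarith
  -- the square roots
  have hσσ : 0 < σ ^ 2 := by positivity
  have hW0 : 0 < W := by
    have h0 := (abs_le.1 hWσ).1
    have h00 : δ * σ ^ 2 ≤ 1 / 2 * σ ^ 2 := mul_le_mul_of_nonneg_right hδ1 hσσ.le
    linarith
  have hsW : 0 < √W := Real.sqrt_pos.2 hW0
  have hsWσ : |√W - σ| ≤ δ * σ := by
    have h1 : (√W - σ) * (√W + σ) = W - σ ^ 2 := by
      have : √W * √W = W := Real.mul_self_sqrt hW0.le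
      linear_combination this
    have h2 : |√W - σ| * σ ≤ δ * σ * σ := by
      calc |√W - σ| * σ ≤ |√W - σ| * (√W + σ) :=
            mul_le_mul_of_nonneg_left (by linarith) (abs_nonneg _)
        _ = |W - σ ^ 2| := by
            rw [← h1, abs_mul, abs_of_pos (by linarith : 0 < √W + σ)]
        _ ≤ δ * σ ^ 2 := hWσ
        _ = δ * σ * σ := by ring
    exact le_of_mul_le_mul_right h2 hσ
  have hsV : √W = 4 * (η * σ) * √(D.V x) := by
    rw [hW, Real.sqrt_mul (by positivity), show (16 : ℝ) * (η * σ) ^ 2 = (4 * (η * σ)) ^ 2 by ring,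
      Real.sqrt_sq (by positivity)]
  have hsV0 : 0 < √(D.V x) := by
    by_contra hcon
    have : √(D.V x) = 0 := le_antisymm (not_lt.1 hcon) (Real.sqrt_nonneg _)
    rw [this, mul_zero] at hsV
    linarith
  -- the variance is large
  have hKV : ((max Ka Kb : ℕ) : ℝ) ≤ D.V x := by
    have h1 : 1 / 2 * σ ^ 2 ≤ W := by
      have h0 := (abs_le.1 hWσ).1
      have h00 : δ * σ ^ 2 ≤ 1 / 2 * σ ^ 2 := mul_le_mul_of_nonneg_right hδ1 hσσ.le
      linarith
    set k : ℝ := ((max Ka Kb : ℕ) : ℝ) with hk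
    have hk0 : 0 ≤ k := Nat.cast_nonneg _
    have h2 : k * (16 * (η * σ) ^ 2) ≤ W := by
      have h3 : k * (16 * η ^ 2) ≤ 1 / 2 := by
        have h4 : 6 * (1 + k) * η ≤ 1 := hη3
        have h5 : (6 * (1 + k) * η) ^ 2 ≤ 1 := pow_le_one₀ (by positivity) h4
        have h6 : k ≤ (1 + k) ^ 2 := by nlinarith
        have h7 : k * (16 * η ^ 2) ≤ (1 + k) ^ 2 * (16 * η ^ 2) :=
          mul_le_mul_of_nonneg_right h6 (by positivity)
        have h8 : (6 * (1 + k) * η) ^ 2 = 36 * ((1 + k) ^ 2 * η ^ 2) := by ring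
        rw [h8] at h5
        linarith
      calc k * (16 * (η * σ) ^ 2) = (k * (16 * η ^ 2)) * σ ^ 2 := by ring
        _ ≤ 1 / 2 * σ ^ 2 := mul_le_mul_of_nonneg_right h3 hσσ.le
        _ ≤ W := h1
    have h3 : k * (16 * (η * σ) ^ 2) ≤ D.V x * (16 * (η * σ) ^ 2) := by
      refine h2.trans (le_of_eq ?_)
      rw [hW]; ring
    exact le_of_mul_le_mul_right h3 (by positivity)
  have hKa : (Ka : ℝ) ≤ D.V x := le_trans (by exact_mod_cast le_max_left Ka Kb) hKV
  have hKb : (Kb : ℝ) ≤ D.V x := le_trans (by exact_mod_cast le_max_right Ka Kb) hKV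
  rcases Nat.eq_zero_or_pos x with hx0 | hx0
  · -- no primes
    exfalso
    subst hx0
    have : PP 0 = ∅ := by
      rw [eq_empty_iff_forall_notMem]
      intro p hp
      rw [mem_PP] at hp
      have := hp.2.pos
      omega
    rw [this, sum_empty] at hσ2
    linarith
  have hNa : x ^ Ka ≤ N := (Nat.pow_le_pow_right hx0 (le_max_left _ _)).trans hN
  have hNb : x ^ Kb ≤ N := (Nat.pow_le_pow_right hx0 (le_max_right _ _)).trans hN
  have ga := ha D x N hKa hNa
  have gb := hb D x N hKb hNb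
  -- the sum
  have hsum : ∀ m, ∑ p ∈ PP x, g p * l.T p m + l.R * ∑ p ∈ PP x, g p =
      4 * (η * σ) * D.S x m + E := by
    intro m
    unfold Dat.S
    rw [hE, mul_sum, mul_sum, ← sum_add_distrib, ← sum_add_distrib]
    refine sum_congr rfl fun p hp => ?_
    rw [hX p hp]
    field_simp
    ring
  have q1 := (abs_le.1 hsWσ).1
  have q2 := (abs_le.1 hsWσ).2
  have q3 : |t * (√W - σ)| ≤ |t| * (δ * σ) := by
    rw [abs_mul]
    exact mul_le_mul_of_nonneg_left hsWσ (abs_nonneg _)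
  have q4 : |t| * (δ * σ) + δ * σ ≤ ε' / 4 * σ := by
    calc |t| * (δ * σ) + δ * σ = ((|t| + 1) * δ) * σ := by ring
      _ ≤ _ := mul_le_mul_of_nonneg_right hδ2 hσ.le
  have q0 : δ * σ ≤ 1 / 2 * σ := mul_le_mul_of_nonneg_right hδ1 hσ.le
  have q5 : 1 / 2 * σ ≤ √W := by linarith
  have q6 := (abs_le.1 q3).1
  have q7 := (abs_le.1 q3).2
  have q9 : ε' * (1 / 2 * σ) ≤ ε' * √W := mul_le_mul_of_nonneg_left q5 hε'0.le
  have q10 : 0 < ε' * σ := by positivity
  have e1 := (abs_le.1 hEσ).1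
  have e2 := (abs_le.1 hEσ).2
  rcases Nat.eq_zero_or_pos N with hN0 | hN0
  · subst hN0
    have hx1 : x ^ max Ka Kb = 0 := by omega
    exact absurd hx1 (pow_ne_zero _ (by omega))
  have hN0' : (0 : ℝ) < N := by exact_mod_cast hN0
  set F : Finset ℕ := {m ∈ Icc 1 N | ∑ p ∈ PP x, g p * l.T p m + l.R * ∑ p ∈ PP x, g p ≤ t * σ}
    with hF
  have hup : (F.card : ℝ) / N ≤ (#{m ∈ Icc 1 N | D.S x m / √(D.V x) ≤ t + ε'} : ℝ) / N := by
    apply div_le_div_of_nonneg_right _ hN0'.le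
    have : F ⊆ {m ∈ Icc 1 N | D.S x m / √(D.V x) ≤ t + ε'} := by
      intro m hm
      rw [hF, mem_filter, hsum] at hm
      rw [mem_filter]
      refine ⟨hm.1, ?_⟩
      rw [div_le_iff₀ hsV0]
      have h2 : 4 * (η * σ) * D.S x m ≤ (t + ε') * √W := by
        have h0 := hm.2
        have r1 : (t + ε') * √W = t * σ + t * (√W - σ) + ε' * √W := by ring
        have r2 : ε' * (1 / 2 * σ) = 1 / 2 * (ε' * σ) := by ring
        have r3 : ε' / 4 * σ = 1 / 4 * (ε' * σ) := by ring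
        rw [r1]
        linarith
      have h3 : 4 * (η * σ) * D.S x m ≤ 4 * (η * σ) * ((t + ε') * √(D.V x)) := by
        refine h2.trans (le_of_eq ?_)
        rw [hsV]; ring
      exact le_of_mul_le_mul_left h3 (by positivity)
    exact_mod_cast card_le_card this
  have hlow : (#{m ∈ Icc 1 N | D.S x m / √(D.V x) ≤ t - ε'} : ℝ) / N ≤ (F.card : ℝ) / N := by
    apply div_le_div_of_nonneg_right _ hN0'.le
    have : {m ∈ Icc 1 N | D.S x m / √(D.V x) ≤ t - ε'} ⊆ F := by
      intro m hm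
      rw [mem_filter] at hm
      rw [hF, mem_filter, hsum]
      refine ⟨hm.1, ?_⟩
      have h0 := hm.2
      rw [div_le_iff₀ hsV0] at h0
      have h1 : 4 * (η * σ) * D.S x m ≤ (t - ε') * √W := by
        calc 4 * (η * σ) * D.S x m ≤ 4 * (η * σ) * ((t - ε') * √(D.V x)) :=
              mul_le_mul_of_nonneg_left h0 (by positivity)
          _ = (t - ε') * √W := by rw [hsV]; ring
      have r1 : (t - ε') * √W = t * σ + t * (√W - σ) - ε' * √W := by ring
      have r2 : ε' * (1 / 2 * σ) = 1 / 2 * (ε' * σ) := by ring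
      have r3 : ε' / 4 * σ = 1 / 4 * (ε' * σ) := by ring
      rw [r1] at h1
      linarith
    exact_mod_cast card_le_card this
  have l1 := Phi_lip (s := t) (t := t + ε') (by linarith)
  have l2 := Phi_lip (s := t - ε') (t := t) (by linarith)
  have ga' := (abs_le.1 ga).2
  have gb' := (abs_le.1 gb).1
  rw [abs_le]
  constructor <;> linarith

end Pool.Agent.T9h58.LN
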