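import Pool.Agent.T9h58.LN.TL
import Pool.Agent.T9h58.LN.Loc

/-!
# The traces of Frobenius as local functions
-/

set_option autoImplicit false

namespace Pool.Agent.T9h58.LN

open Finset
open Pool.Agent.R459.Bsd Pool.Agent.N430.CLT
open Pool.Agent.W263.BSD (GoodPrime pointCount)

section one
variable {p : ℕ} [Fact p.Prime]

/-- the traces at one prime -/
lemma tlocal_gen (τ : ZMod p → ℝ) (Bd : Finset (ZMod p))
    (hτ : ∀ z, |τ z| ≤ 2 * √p) {R : ℝ} (h1 : ∑ z, τ z = -(R * p))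
    {C₀ : ℝ} (h2 : |∑ z, τ z ^ 2 - (p : ℝ) ^ 2| ≤ C₀ * (p * √p))
    (hB : (Bd.card : ℝ) ≤ 3) (F : ℕ → ℝ)
    (hF : ∀ t : ℕ, F t = if (t : ZMod p) ∈ Bd then 0 else τ (t : ZMod p)) :
    |avgP p F + R| ≤ (12 + C₀) / √p + 6 / √p ∧
      |avgP p (fun m => F m ^ 2) - p| ≤ (12 + C₀) * √p := by
  have hpp : p.Prime := Fact.out
  have hp0 : (0 : ℝ) < p := by exact_mod_cast hpp.pos
  have hp1 : (1 : ℝ) ≤ p := by exact_mod_cast hpp.one_le
  have hs0 : 0 < √(p : ℝ) := Real.sqrt_pos.2 hp0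
  have hs1 : 1 ≤ √(p : ℝ) := by rw [Real.one_le_sqrt]; exact hp1
  have hss : √(p : ℝ) * √(p : ℝ) = p := Real.mul_self_sqrt hp0.le
  have hC₀ : 0 ≤ C₀ := by
    have h3 : 0 ≤ C₀ * (p * √p) := (abs_nonneg _).trans h2
    by_contra hc
    have : C₀ * (p * √p) < 0 := mul_neg_of_neg_of_pos (not_le.1 hc) (by positivity)
    linarith
  set H : ZMod p → ℝ := fun z => if z ∈ Bd then 0 else τ z with hH
  have hFH : ∀ t : ℕ, F t = H (t : ZMod p) := hF
  have havg : ∀ φ : ℝ → ℝ, avgP p (fun m => φ (F m)) = (∑ z : ZMod p, φ (H z)) / p := by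
    intro φ
    unfold avgP
    congr 1
    rw [← sum_zmod (p := p) (fun z => φ (H z))]
    refine sum_congr rfl fun t _ => ?_
    show φ (F t) = φ (H ((t : ℤ) : ZMod p))
    rw [hFH]
    push_cast
    rfl
  have hbsum : ∀ c : ℝ, ∑ z : ZMod p, (if z ∈ Bd then c else 0) = (Bd.card : ℝ) * c := by
    intro c
    rw [Finset.sum_ite_mem, univ_inter, sum_const, nsmul_eq_mul]
  constructor
  · have h3 : avgP p F = (∑ z : ZMod p, H z) / p := havg (fun u => u)
    have e1 : |∑ z : ZMod p, H z - ∑ z, τ z| ≤ 6 * √p := by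
      rw [← sum_sub_distrib]
      have g : ∀ z ∈ (univ : Finset (ZMod p)), |H z - τ z| ≤ if z ∈ Bd then 2 * √p else 0 := by
        intro z _
        rw [hH]
        simp only
        split_ifs
        · rw [zero_sub, abs_neg]; exact hτ z
        · rw [sub_self, abs_zero]
      refine (abs_sum_le_sum_abs _ _).trans ((sum_le_sum g).trans ?_)
      rw [hbsum]
      calc (Bd.card : ℝ) * (2 * √p) ≤ 3 * (2 * √p) := mul_le_mul_of_nonneg_right hB (by positivity)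
        _ = 6 * √p := by ring
    have e2 : avgP p F + R = (∑ z : ZMod p, H z - ∑ z, τ z) / p := by
      rw [h3, h1]
      field_simp
      ring
    have e3 : |avgP p F + R| ≤ 6 / √p := by
      rw [e2, abs_div, abs_of_pos hp0, div_le_div_iff₀ hp0 hs0]
      calc |∑ z : ZMod p, H z - ∑ z, τ z| * √p ≤ 6 * √p * √p :=
            mul_le_mul_of_nonneg_right e1 hs0.le
        _ = 6 * p := by rw [mul_assoc, hss]
    have e4 : 0 ≤ (12 + C₀) / √p := by positivity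
    linarith
  · have h3 := havg (fun u => u ^ 2)
    rw [h3]
    have e1 : |∑ z : ZMod p, H z ^ 2 - ∑ z, τ z ^ 2| ≤ 12 * p := by
      rw [← sum_sub_distrib]
      have g : ∀ z ∈ (univ : Finset (ZMod p)), |H z ^ 2 - τ z ^ 2| ≤ if z ∈ Bd then 4 * (p : ℝ) else 0 := by
        intro z _
        rw [hH]
        simp only
        split_ifs
        · have : (0 : ℝ) ^ 2 - τ z ^ 2 = -(|τ z| ^ 2) := by rw [sq_abs]; ring
          rw [this, abs_neg, abs_of_nonneg (sq_nonneg _)]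
          calc |τ z| ^ 2 ≤ (2 * √p) ^ 2 := pow_le_pow_left₀ (abs_nonneg _) (hτ z) 2
            _ = 4 * (√p * √p) := by ring
            _ = 4 * p := by rw [hss]
        · rw [sub_self, abs_zero]
      refine (abs_sum_le_sum_abs _ _).trans ((sum_le_sum g).trans ?_)
      rw [hbsum]
      calc (Bd.card : ℝ) * (4 * (p : ℝ)) ≤ 3 * (4 * p) := mul_le_mul_of_nonneg_right hB (by positivity)
        _ = 12 * p := by ring
    have e2 : (∑ z : ZMod p, H z ^ 2) / p - p = ((∑ z : ZMod p, H z ^ 2 - ∑ z, τ z ^ 2) +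
        (∑ z, τ z ^ 2 - (p : ℝ) ^ 2)) / p := by
      field_simp
      ring
    rw [e2, abs_div, abs_of_pos hp0, div_le_iff₀ hp0]
    refine (abs_add_le _ _).trans ((add_le_add e1 h2).trans ?_)
    have e3 : 12 * (p : ℝ) ≤ 12 * (p * √p) := by nlinarith
    calc 12 * (p : ℝ) + C₀ * (p * √p) ≤ 12 * (p * √p) + C₀ * (p * √p) := by linarith
      _ = (12 + C₀) * √p * p := by ring

end one

theorem exists_tloc (G : ℕ → ℕ → ℝ) (R : ℝ) (per : ∀ p, p.Prime → ∀ m, G p (m + p) = G p m)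
    (bd : ∀ p, p.Prime → ∀ m, |G p m| ≤ 2 * √p) (p₁ : ℕ) (C₁ : ℝ)
    (h : ∀ p, p.Prime → p₁ ≤ p → |avgP p (G p) + R| ≤ C₁ / √p ∧
      |avgP p (fun m => G p m ^ 2) - p| ≤ C₁ * √p) : ∃ l : TLoc, l.T = G ∧ l.R = R := by
  set C : ℝ := |C₁| + 1 + (5 + |R|) * p₁ with hC
  have hC1 : 1 ≤ C := by
    rw [hC]
    have h1 : 0 ≤ (5 + |R|) * (p₁ : ℝ) := by positivity
    linarith [abs_nonneg C₁]
  have hCC : C₁ ≤ C := by
    rw [hC]
    have h1 : 0 ≤ (5 + |R|) * (p₁ : ℝ) := by positivity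
    linarith [le_abs_self C₁]
  refine ⟨⟨G, R, C, hC1, per, bd, fun p hpp => ?_, fun p hpp => ?_⟩, rfl, rfl⟩
  · have hp0 : (0 : ℝ) < p := by exact_mod_cast hpp.pos
    have hp1 : (1 : ℝ) ≤ p := by exact_mod_cast hpp.one_le
    have hs0 : 0 < √(p : ℝ) := Real.sqrt_pos.2 hp0
    have hs1 : 1 ≤ √(p : ℝ) := by rw [Real.one_le_sqrt]; exact hp1
    have hss : √(p : ℝ) * √(p : ℝ) = p := Real.mul_self_sqrt hp0.le
    by_cases hp : p < p₁
    · have hpp1 : (p : ℝ) ≤ p₁ := by exact_mod_cast hp.le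
      rw [le_div_iff₀ hs0]
      have h1 : |avgP p (G p) + R| ≤ 2 * √p + |R| :=
        (abs_add_le _ _).trans (add_le_add (abs_avgP_le hpp.pos (bd p hpp)) le_rfl)
      calc |avgP p (G p) + R| * √p ≤ (2 * √p + |R|) * √p := mul_le_mul_of_nonneg_right h1 hs0.le
        _ = 2 * p + |R| * √p := by rw [add_mul, mul_assoc, hss]
        _ ≤ 2 * p + |R| * p := by
            have : √(p : ℝ) ≤ p := by nlinarith
            linarith [mul_le_mul_of_nonneg_left this (abs_nonneg R)]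
        _ ≤ C := by
            rw [hC]
            have h2 : (2 + |R|) * p ≤ (5 + |R|) * (p₁ : ℝ) :=
              mul_le_mul (by linarith) hpp1 hp0.le (by positivity)
            linarith [abs_nonneg C₁]
    · exact (h p hpp (not_lt.1 hp)).1.trans (div_le_div_of_nonneg_right hCC hs0.le)
  · have hp0 : (0 : ℝ) < p := by exact_mod_cast hpp.pos
    have hp1 : (1 : ℝ) ≤ p := by exact_mod_cast hpp.one_le
    have hs0 : 0 < √(p : ℝ) := Real.sqrt_pos.2 hp0
    have hs1 : 1 ≤ √(p : ℝ) := by rw [Real.one_le_sqrt]; exact hp1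
    have hss : √(p : ℝ) * √(p : ℝ) = p := Real.mul_self_sqrt hp0.le
    by_cases hp : p < p₁
    · have hpp1 : (p : ℝ) ≤ p₁ := by exact_mod_cast hp.le
      have h1 : |avgP p (fun m => G p m ^ 2)| ≤ 4 * p := abs_avgP_le hpp.pos fun m => by
        rw [abs_pow]
        calc |G p m| ^ 2 ≤ (2 * √p) ^ 2 := pow_le_pow_left₀ (abs_nonneg _) (bd p hpp m) 2
          _ = 4 * (√p * √p) := by ring
          _ = 4 * p := by rw [hss]
      have h2 : |avgP p (fun m => G p m ^ 2) - p| ≤ 5 * p := by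
        refine (abs_sub _ _).trans ?_
        rw [abs_of_pos hp0]
        linarith
      calc |avgP p (fun m => G p m ^ 2) - p| ≤ 5 * p := h2
        _ ≤ (5 + |R|) * p₁ := mul_le_mul (by linarith [abs_nonneg R]) hpp1 hp0.le (by positivity)
        _ ≤ C := by rw [hC]; linarith [abs_nonneg C₁]
        _ ≤ C * √p := le_mul_of_one_le_right (by linarith) hs1
    · exact (h p hpp (not_lt.1 hp)).2.trans (mul_le_mul_of_nonneg_right hCC hs0.le)

lemma TT_bd (p : ℕ) (hpp : p.Prime) (a n : ℤ) : |TT a p n| ≤ 2 * √p := by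
  by_cases hp : p = 2
  · have h : ¬ GoodPrime a n p := by
      unfold GoodPrime
      rintro ⟨_, h⟩
      apply h
      rw [hp]
      exact ⟨-4 * a ^ 3 - 27 * n ^ 2, by push_cast; ring⟩
    unfold TT
    rw [if_neg h, abs_zero]
    positivity
  · exact TT_abs hpp hp a n

/-- the family `y² = x³ + a x + m` -/
theorem tloc_const {a : ℤ} (ha : a ≠ 0) :
    ∃ l : TLoc, l.T = (fun p m : ℕ => TT a p (m : ℤ)) ∧ l.R = 0 := by
  classical
  refine exists_tloc (fun p m : ℕ => TT a p (m : ℤ)) _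
    (fun p hpp m => TT_per a p _ _ (by push_cast; exact ⟨1, by ring⟩))
    (fun p hpp m => TT_bd p hpp a m)
    (max 29 (a.natAbs + 1)) (12 + 3 + 6) fun p hpp hp => ?_
  have : Fact p.Prime := ⟨hpp⟩
  have hp29 : 29 ≤ p := (le_max_left _ _).trans hp
  have hpa : a.natAbs < p := by have := (le_max_right _ _).trans hp; omega
  have hp2 : p ≠ 2 := by omega
  have hp1 : (1 : ℝ) ≤ p := by exact_mod_cast hpp.one_le
  have hs1 : 1 ≤ √(p : ℝ) := by rw [Real.one_le_sqrt]; exact hp1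
  have h3 : (3 : ZMod p) ≠ 0 := by
    intro h0
    have : ((3 : ℕ) : ZMod p) = 0 := by exact_mod_cast h0
    rw [ZMod.natCast_eq_zero_iff] at this
    have := Nat.le_of_dvd (by norm_num) this
    omega
  have ha' : (a : ZMod p) ≠ 0 := by
    rw [Ne, ZMod.intCast_zmod_eq_zero_iff_dvd]
    intro h
    have h4 := Int.natAbs_dvd_natAbs.2 h
    rw [Int.natAbs_natCast] at h4
    have := Nat.le_of_dvd (Int.natAbs_pos.2 ha) h4
    omega
  obtain ⟨Bd, hBd⟩ : ∃ Bd : Finset (ZMod p), Bd =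
      univ.filter (fun z => -4 * (a : ZMod p) ^ 3 - 27 * z ^ 2 = 0) := ⟨_, rfl⟩
  have hmem : ∀ z, z ∈ Bd ↔ -4 * (a : ZMod p) ^ 3 - 27 * z ^ 2 = 0 := by
    intro z
    rw [hBd, mem_filter]
    exact ⟨fun h => h.2, fun h => ⟨mem_univ _, h⟩⟩
  have hB : (Bd.card : ℝ) ≤ 3 := by
    have h4 := bad_card hpp (by omega) (a : ZMod p)
    have h5 : Bd.card ≤ 2 := by
      refine le_trans (card_le_card ?_) h4
      intro z hz
      rw [mem_filter]
      exact ⟨mem_univ _, fun h => h ((hmem z).1 hz)⟩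
    have h6 : (Bd.card : ℝ) ≤ 2 := by exact_mod_cast h5
    linarith
  have hF : ∀ t : ℕ, TT a p (t : ℤ) = if (t : ZMod p) ∈ Bd then 0 else
      tr p (a : ZMod p) (t : ZMod p) := by
    intro t
    have hz : (((t : ℕ) : ℤ) : ZMod p) = ((t : ℕ) : ZMod p) := by push_cast; rfl
    have h5 := good_iff hpp (by omega) a (t : ℤ)
    rw [hz] at h5
    unfold TT
    by_cases h : GoodPrime a (t : ℤ) p
    · rw [if_pos h, if_neg (fun h6 => (h5.1 h) ((hmem _).1 h6)), pc_eq hp2, hz]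
    · rw [if_neg h, if_pos ((hmem _).2 (not_not.1 fun h6 => h (h5.2 h6)))]
  have key := tlocal_gen (fun z => tr p (a : ZMod p) z) Bd (fun z => tr_abs hp2 _ _)
    (R := 0) (by rw [tr_mean hp2]; simp) (C₀ := 3)
    ((tr_sq hp2 h3 ha').trans (by
      have : (p : ℝ) ≤ p * √p := by nlinarith
      linarith)) hB (fun m : ℕ => TT a p (m : ℤ)) hF
  refine ⟨key.1.trans (le_of_eq (by ring)), key.2.trans ?_⟩
  exact mul_le_mul_of_nonneg_right (by norm_num) (by linarith)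

/-- the family `y² = x³ + m x + c²` -/
theorem tloc_lin {c : ℤ} (hc : c ≠ 0) :
    ∃ l : TLoc, l.T = (fun p m : ℕ => TT (m : ℤ) p (c ^ 2)) ∧ l.R = 1 := by
  classical
  have hper : ∀ (p m : ℕ), TT ((m + p : ℕ) : ℤ) p (c ^ 2) = TT (m : ℤ) p (c ^ 2) := by
    intro p m
    have e1 : GoodPrime ((m + p : ℕ) : ℤ) (c ^ 2) p ↔ GoodPrime (m : ℤ) (c ^ 2) p := by
      unfold GoodPrime
      have h1 : (p : ℤ) ∣ 2 * (-4 * ((m + p : ℕ) : ℤ) ^ 3 - 27 * (c ^ 2) ^ 2) -
          2 * (-4 * (m : ℤ) ^ 3 - 27 * (c ^ 2) ^ 2) := by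
        refine ⟨-8 * (3 * (m : ℤ) ^ 2 + 3 * m * p + (p : ℤ) ^ 2), ?_⟩
        push_cast
        ring
      rw [dvd_iff_dvd_of_dvd_sub h1]
    have e2 : pointCount ((m + p : ℕ) : ℤ) (c ^ 2) p = pointCount (m : ℤ) (c ^ 2) p := by
      unfold pointCount
      have : ((((m + p : ℕ) : ℤ)) : ZMod p) = ((m : ℤ) : ZMod p) := by
        push_cast
        simp
      rw [this]
    unfold TT
    rw [e2]
    exact if_congr e1 rfl rfl
  refine exists_tloc (fun p m : ℕ => TT (m : ℤ) p (c ^ 2)) _ (fun p hpp m => hper p m)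
    (fun p hpp m => TT_bd p hpp m _)
    (max 29 (c.natAbs + 1)) (12 + 8 + 6) fun p hpp hp => ?_
  have : Fact p.Prime := ⟨hpp⟩
  have hp29 : 29 ≤ p := (le_max_left _ _).trans hp
  have hpc : c.natAbs < p := by have := (le_max_right _ _).trans hp; omega
  have hp2 : p ≠ 2 := by omega
  have hc' : (c : ZMod p) ≠ 0 := by
    rw [Ne, ZMod.intCast_zmod_eq_zero_iff_dvd]
    intro h
    have h4 := Int.natAbs_dvd_natAbs.2 h
    rw [Int.natAbs_natCast] at h4
    have := Nat.le_of_dvd (Int.natAbs_pos.2 hc) h4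
    omega
  have hn : ((c ^ 2 : ℤ) : ZMod p) ≠ 0 := by
    push_cast
    exact pow_ne_zero 2 hc'
  have hch : ch p ((c ^ 2 : ℤ) : ZMod p) = 1 := by
    push_cast
    rw [sq, ch_mul, ch_sq hc']
  obtain ⟨n, hnd⟩ : ∃ n : ZMod p, n = ((c ^ 2 : ℤ) : ZMod p) := ⟨_, rfl⟩
  rw [← hnd] at hn hch
  obtain ⟨Bd, hBd⟩ : ∃ Bd : Finset (ZMod p), Bd =
      univ.filter (fun z : ZMod p => -4 * z ^ 3 - 27 * n ^ 2 = 0) := ⟨_, rfl⟩
  have hmem : ∀ z, z ∈ Bd ↔ -4 * z ^ 3 - 27 * n ^ 2 = 0 := by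
    intro z
    rw [hBd, mem_filter]
    exact ⟨fun h => h.2, fun h => ⟨mem_univ _, h⟩⟩
  have hB : (Bd.card : ℝ) ≤ 3 := by
    rw [hBd]
    exact bad_card' hp2 n
  have hF : ∀ t : ℕ, TT (t : ℤ) p (c ^ 2) = if (t : ZMod p) ∈ Bd then 0 else
      tr p (t : ZMod p) n := by
    intro t
    have hz : (((t : ℕ) : ℤ) : ZMod p) = ((t : ℕ) : ZMod p) := by push_cast; rfl
    have h5 := good_iff hpp (by omega) (t : ℤ) (c ^ 2)
    rw [hz, ← hnd] at h5
    unfold TT
    by_cases h : GoodPrime (t : ℤ) (c ^ 2) p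
    · rw [if_pos h, if_neg (fun h6 => (h5.1 h) ((hmem _).1 h6)), pc_eq hp2, hz, ← hnd]
    · rw [if_neg h, if_pos ((hmem _).2 (not_not.1 fun h6 => h (h5.2 h6)))]
  have key := tlocal_gen (fun z => tr p z n) Bd (fun z => tr_abs hp2 _ _)
    (R := 1) (by rw [tr_mean' hp2, hch]) (C₀ := 8)
    (tr_sq' hp2 hn) hB (fun m : ℕ => TT (m : ℤ) p (c ^ 2)) hF
  refine ⟨key.1.trans (le_of_eq (by ring)), key.2.trans ?_⟩
  exact mul_le_mul_of_nonneg_right (by norm_num) (Real.sqrt_nonneg _)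

end Pool.Agent.T9h58.LN
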